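import Pool.Agent.H899.RG.Dec

/-!
# Relative classes given by invariant hermitian forms
-/

set_option autoImplicit false

namespace Pool.Agent.H899.RG

open Pool.Agent.H899.ER (NRs NR form coef integral semiample effective span nefCone effCone nefEff
  IsPullback IsOver IsAutGroup HasDomain)

open Filter Topology
open Pool.Agent.W594.SYZ2 (IsHermitian)
open Pool.Agent.R895 (BlBundle act N1 N1s IsClass)
open Pool.Agent.T6.H34.GK (Lat kum IsGau std frm kap Nf Dat IsExt exH exH_herm exH_int co mem_co frm_add frm_smul frm_sub frm_zero form_frm N1_ext' kap_ne re_natMul thB semiample_of_dec section_of_dec)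
open Pool.Agent.Y167 (AffGrp cone cone_ind cone_add cone_smul mem_cone_self zero_mem_cone cone_mono)
open Pool.Agent.T6.H34.EK (QBundle NS NSs IsCls)
open Pool.Agent.T6.H34.GE (PresLat grp res c0 c0_pos c0_real avg avg_dat avg_inv avg_re Inv cls_eq semiample_qB section_qB pow_cls)

variable {n r : ℕ} {G : Subgroup ((Fin n → ℂ) ≃ₗ[ℂ] (Fin n → ℂ))} {hG : PresLat G}
  {j : (Fin r → ℂ) →ₗ[ℂ] (Fin n → ℂ)} {ρ : Fin r → Fin n}
  {K : Subgroup ((Fin r → ℂ) ≃ₗ[ℂ] (Fin r → ℂ))} {h : (Fin r → ℂ) → (Fin r → ℂ) → ℂ}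
  [Fintype G] [Nonempty (Fin n)]

theorem semiample_cls (hr : OkR ρ) (hR : Restr G j K) (hj : IsExt ρ j)
    (hρ : Function.Injective ρ) (D : Dat h) (hi : Inv K h) (b : ℕ)
    (hp : ∀ v, v ≠ 0 → 0 < (h v v).re)
    (hb : ∀ v, Lat v → v ≠ 0 → (b : ℝ) < (h v v).re) {y : NR (grp G hG) j}
    (h1 : ∀ u w, frm (up y) u w = cr G * h u w) (h2 : coef y = cr G * b) :
    y ∈ semiample (grp G hG) j := by
  have D' : Dat (exH ρ b h) := ⟨exH_herm D.herm _, exH_int D.int _⟩
  obtain ⟨y', h3, h4, h5⟩ := Pool.Agent.T6.H34.GE.exists_cls hG (avg_dat hG D') (avg_inv _)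
    (Fintype.card G * b)
  have hy : y = rs y' := by
    refine NR_ext (fun u w => ?_) ?_
    · rw [h1, frm_rs, h4, avg_exH hR hj hρ hi]
      unfold cr
      push_cast
      ring
    · rw [h2, coef_rs, h5]
      unfold cr
      push_cast
      ring
  obtain ⟨k1, k2⟩ := dec_avg (ρ := ρ) hG hr D b hp hb
  have DA := avg_dat hG D'
  rw [hy]
  refine rs_semiample ⟨_, cls_eq (D := DA) (hi := avg_inv _) h4 h5,
    semiample_qB hG DA.herm DA.int (avg_inv _) (semiample_of_dec DA.herm DA.int _ k1 k2)⟩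

theorem effective_cls (hr : OkR ρ) (hR : Restr G j K) (hj : IsExt ρ j)
    (hρ : Function.Injective ρ) (D : Dat h) (hi : Inv K h) (b : ℕ)
    (hb : (∀ v, v ≠ 0 → 0 < (h v v).re) ∧ (∀ v, Lat v → v ≠ 0 → (b : ℝ) ≤ (h v v).re) ∨
      b = 0 ∧ ∀ v, 0 ≤ (h v v).re) {y : NR (grp G hG) j}
    (h1 : ∀ u w, frm (up y) u w = cr G * h u w) (h2 : coef y = cr G * b) :
    ∃ N : ℕ, 1 ≤ N ∧ (N : ℝ) • y ∈ effective (grp G hG) j := by
  have D' : Dat (exH ρ b h) := ⟨exH_herm D.herm _, exH_int D.int _⟩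
  obtain ⟨y', h3, h4, h5⟩ := Pool.Agent.T6.H34.GE.exists_cls hG (avg_dat hG D') (avg_inv _)
    (Fintype.card G * b)
  have hy : y = rs y' := by
    refine NR_ext (fun u w => ?_) ?_
    · rw [h1, frm_rs, h4, avg_exH hR hj hρ hi]
      unfold cr
      push_cast
      ring
    · rw [h2, coef_rs, h5]
      unfold cr
      push_cast
      ring
  have DA := avg_dat hG D'
  have key := section_of_dec (m := 1) DA.herm DA.int _ (dec_avg_zero (ρ := ρ) hG hr D b hb)
  obtain ⟨N, hN, s, hs, h0⟩ := section_qB hG DA.herm DA.int (avg_inv _) key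
  obtain ⟨L', hL', hc⟩ := pow_cls (cls_eq (D := DA) (hi := avg_inv _) h4 h5) N
  refine ⟨N, hN, ?_⟩
  rw [hy, ← rs_smul]
  refine rs_effective ⟨L', s, hc, ?_, h0⟩
  rw [hL']
  exact hs

end Pool.Agent.H899.RG
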