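import Pool.Agent.H899.RG.Res

/-!
# Relative classes given by invariant hermitian forms
-/

set_option autoImplicit false

namespace Pool.Agent.H899.RG

open Pool.Agent.H899.ER (NRs NR form coef integral semiample effective span nefCone effCone nefEff
  IsPullback IsOver IsAutGroup HasDomain)

open Filter Topology
open Pool.Agent.W594.SYZ2 (IsHermitian)
open Pool.Agent.R895 (BlBundle act N1 N1s IsClass)
open Pool.Agent.T6.H34.GK (Lat kum IsGau std frm kap Nf Dat IsExt exH exH_herm exH_int co mem_co frm_add frm_smul frm_sub frm_zero form_frm N1_ext' kap_ne re_natMul)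
open Pool.Agent.Y167 (AffGrp cone cone_ind cone_add cone_smul mem_cone_self zero_mem_cone cone_mono)
open Pool.Agent.T6.H34.EK (QBundle NS NSs IsCls)
open Pool.Agent.T6.H34.GE (PresLat grp res c0 c0_pos c0_real avg avg_dat avg_inv avg_re Inv)

variable {n r : ℕ} {G : Subgroup ((Fin n → ℂ) ≃ₗ[ℂ] (Fin n → ℂ))} {hG : PresLat G}
  {j : (Fin r → ℂ) →ₗ[ℂ] (Fin n → ℂ)} {ρ : Fin r → Fin n}
  {K : Subgroup ((Fin r → ℂ) ≃ₗ[ℂ] (Fin r → ℂ))} {h : (Fin r → ℂ) → (Fin r → ℂ) → ℂ}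

section rs

theorem isClass_of {L : QBundle (grp G hG)} {x : ((Fin n → ℂ) → (Fin n → ℂ) → ℂ) × ℝ}
    (hL : IsCls L x) : IsClass j L.toBlBundle (fun u w => x.1 (j u) (j w), x.2) :=
  ⟨x.1, hL.1, fun _ _ => rfl, hL.2⟩

theorem rs_mem (x : NS (grp G hG)) :
    ((fun u w => x.1.1 (j u) (j w), x.1.2) : ((Fin r → ℂ) → (Fin r → ℂ) → ℂ) × ℝ) ∈
      NRs (grp G hG) j := by
  obtain ⟨x, hx⟩ := x
  change ((fun u w => x.1 (j u) (j w), x.2) : ((Fin r → ℂ) → (Fin r → ℂ) → ℂ) × ℝ) ∈ _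
  unfold NSs at hx
  induction hx using Submodule.span_induction with
  | mem x hx =>
    obtain ⟨L, hL⟩ := hx
    exact Submodule.subset_span ⟨_, isClass_of hL⟩
  | zero => exact Submodule.zero_mem _
  | add x y _ _ h1 h2 => exact Submodule.add_mem _ h1 h2
  | smul t x _ h1 => exact Submodule.smul_mem _ t h1

/-- The restriction of an absolute class. -/
def rs (x : NS (grp G hG)) : NR (grp G hG) j := ⟨_, rs_mem x⟩

theorem rs_smul (t : ℝ) (x : NS (grp G hG)) : rs (j := j) (t • x) = t • rs x := rfl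

theorem frm_rs (x : NS (grp G hG)) (u w : Fin r → ℂ) :
    frm (up (rs (j := j) x)) u w = frm (Pool.Agent.T6.H34.GE.up x) (j u) (j w) := rfl

theorem coef_rs (x : NS (grp G hG)) : coef (rs (j := j) x) = Pool.Agent.T6.H34.EK.coef x := rfl

theorem rs_integral {x : NS (grp G hG)} (hx : x ∈ Pool.Agent.T6.H34.EK.integral (grp G hG)) :
    rs (j := j) x ∈ integral (grp G hG) j := by
  obtain ⟨L, hL⟩ := hx
  exact ⟨L, isClass_of hL⟩

theorem rs_semiample {x : NS (grp G hG)} (hx : x ∈ Pool.Agent.T6.H34.EK.semiample (grp G hG)) :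
    rs (j := j) x ∈ semiample (grp G hG) j := by
  obtain ⟨L, hL, h⟩ := hx
  exact ⟨L, isClass_of hL, h⟩

theorem rs_effective {x : NS (grp G hG)} (hx : x ∈ Pool.Agent.T6.H34.EK.effective (grp G hG)) :
    rs (j := j) x ∈ effective (grp G hG) j := by
  obtain ⟨L, s, hL, hs, h0⟩ := hx
  exact ⟨L, s, isClass_of hL, hs, h0⟩

end rs

section exH

theorem re_exH (c : ℕ) (v : Fin n → ℂ) : (exH ρ c h v v).re =
    (h (v ∘ ρ) (v ∘ ρ)).re + c * ∑ i ∈ co ρ, Complex.normSq (v i) := by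
  unfold exH
  rw [Complex.add_re, re_natMul, Complex.re_sum]
  congr 2
  refine Finset.sum_congr rfl fun i _ => ?_
  rw [Complex.mul_conj, Complex.ofReal_re]

theorem co_of_ne {v : Fin n → ℂ} (hv : v ≠ 0) (h0 : v ∘ ρ = 0) : ∃ i ∈ co ρ, v i ≠ 0 := by
  obtain ⟨i, hi⟩ := Function.ne_iff.1 hv
  refine ⟨i, mem_co.2 ?_, hi⟩
  rintro a rfl
  exact hi (congrFun h0 a)

theorem exH_pos (D : Dat h) {c : ℕ} (hc : 0 < c) (hp : ∀ v, v ≠ 0 → 0 < (h v v).re)
    {v : Fin n → ℂ} (hv : v ≠ 0) : 0 < (exH ρ c h v v).re := by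
  rw [re_exH]
  have h1 : 0 ≤ ∑ i ∈ co ρ, Complex.normSq (v i) :=
    Finset.sum_nonneg fun i _ => Complex.normSq_nonneg _
  have hcr : (0 : ℝ) < c := by exact_mod_cast hc
  by_cases h0 : v ∘ ρ = 0
  · obtain ⟨i, hi, hi0⟩ := co_of_ne hv h0
    have h2 : Complex.normSq (v i) ≤ ∑ i ∈ co ρ, Complex.normSq (v i) :=
      Finset.single_le_sum (f := fun i => Complex.normSq (v i))
        (fun i _ => Complex.normSq_nonneg _) hi
    have h3 := Complex.normSq_pos.2 hi0
    have h4 : h (v ∘ ρ) (v ∘ ρ) = 0 := by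
      rw [h0]
      exact Pool.Agent.W594.SYZ2.TQ.h_zero_right D.herm _
    rw [h4, Complex.zero_re, zero_add]
    exact mul_pos hcr (h3.trans_le h2)
  · have := hp _ h0
    positivity

theorem one_le_normSq {z : ℂ} (hz : IsGau z) (h0 : z ≠ 0) : 1 ≤ Complex.normSq z := by
  have h1 := Pool.Agent.T6.H34.GK.one_le_std (v := fun _ : Fin 1 => z) (fun _ => hz) (by
    intro h
    exact h0 (congrFun h 0))
  have h2 : (std (fun _ : Fin 1 => z) (fun _ : Fin 1 => z)).re = Complex.normSq z := by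
    unfold std
    rw [Complex.re_sum]
    simp [Complex.mul_conj, Complex.normSq_apply]
  rwa [h2] at h1

/-- The values of the extended form at lattice vectors. -/
theorem exH_lat (D : Dat h) {b c : ℕ} (hbc : b < c) {t : ℝ}
    (hb : ∀ v, Lat v → v ≠ 0 → t ≤ (h v v).re) (htb : t ≤ (b : ℝ) + 1) {v : Fin n → ℂ}
    (hv : Lat v) (hv0 : v ≠ 0) : t ≤ (exH ρ c h v v).re := by
  rw [re_exH]
  have h1 : 0 ≤ ∑ i ∈ co ρ, Complex.normSq (v i) :=
    Finset.sum_nonneg fun i _ => Complex.normSq_nonneg _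
  have hcr : (b : ℝ) + 1 ≤ c := by exact_mod_cast hbc
  by_cases h0 : v ∘ ρ = 0
  · obtain ⟨i, hi, hi0⟩ := co_of_ne hv0 h0
    have h2 : Complex.normSq (v i) ≤ ∑ i ∈ co ρ, Complex.normSq (v i) :=
      Finset.single_le_sum (f := fun i => Complex.normSq (v i))
        (fun i _ => Complex.normSq_nonneg _) hi
    have h3 := one_le_normSq (hv i) hi0
    have h4 : h (v ∘ ρ) (v ∘ ρ) = 0 := by
      rw [h0]
      exact Pool.Agent.W594.SYZ2.TQ.h_zero_right D.herm _
    rw [h4, Complex.zero_re, zero_add]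
    have h5 : (0 : ℝ) ≤ b := Nat.cast_nonneg b
    nlinarith
  · have h6 : t ≤ (h (v ∘ ρ) (v ∘ ρ)).re := hb _ (fun a => hv (ρ a)) h0
    have h5 : (0 : ℝ) ≤ c := Nat.cast_nonneg c
    have h7 := mul_nonneg h5 h1
    linarith

theorem exH_nonneg {c : ℕ} (hp : ∀ v, 0 ≤ (h v v).re) (v : Fin n → ℂ) :
    0 ≤ (exH ρ c h v v).re := by
  rw [re_exH]
  have h1 : 0 ≤ ∑ i ∈ co ρ, Complex.normSq (v i) :=
    Finset.sum_nonneg fun i _ => Complex.normSq_nonneg _
  have := hp (v ∘ ρ)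
  positivity

end exH

section avg

variable [Fintype G]

theorem avg_exH (hR : Restr G j K) (hj : IsExt ρ j) (hρ : Function.Injective ρ) (hi : Inv K h)
    (c : ℕ) (u w : Fin r → ℂ) : avg G (exH ρ c h) (j u) (j w) = Fintype.card G * h u w := by
  unfold avg
  have h1 : ∀ g : G, exH ρ c h ((g : (Fin n → ℂ) ≃ₗ[ℂ] (Fin n → ℂ)) (j u))
      ((g : (Fin n → ℂ) ≃ₗ[ℂ] (Fin n → ℂ)) (j w)) = h u w := by
    intro g
    obtain ⟨a, ha, h2⟩ := hR.down g g.2
    rw [h2, h2, hj.exH hρ, hi a ha]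
  rw [Finset.sum_congr rfl fun g _ => h1 g, Finset.sum_const, Finset.card_univ, nsmul_eq_mul]

theorem card_pos' : (0 : ℝ) < Fintype.card G := by exact_mod_cast Fintype.card_pos

/-- The constant. -/
noncomputable def cr (G : Subgroup ((Fin n → ℂ) ≃ₗ[ℂ] (Fin n → ℂ))) [Fintype G] : ℕ :=
  c0 G * Fintype.card G

theorem cr_pos : 0 < cr G := Nat.mul_pos c0_pos Fintype.card_pos

theorem cr_real : (0 : ℝ) < cr G := by exact_mod_cast cr_pos

theorem one_le_cr : (1 : ℝ) ≤ cr G := by exact_mod_cast cr_pos (G := G)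

theorem cr_ne : (cr G : ℂ) ≠ 0 := by exact_mod_cast (cr_pos (G := G)).ne'

variable [Nonempty (Fin n)]

/-- The class of an invariant integral form. -/
theorem exists_cls (hG : PresLat G) (hR : Restr G j K) (hj : IsExt ρ j)
    (hρ : Function.Injective ρ) (D : Dat h) (hi : Inv K h) (b : ℕ) :
    ∃ y : NR (grp G hG) j, y ∈ integral (grp G hG) j ∧
      (∀ u w, frm (up y) u w = cr G * h u w) ∧ coef y = cr G * b := by
  have D' : Dat (exH ρ 0 h) := ⟨exH_herm D.herm 0, exH_int D.int 0⟩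
  obtain ⟨y, h1, h2, h3⟩ := Pool.Agent.T6.H34.GE.exists_cls hG (avg_dat hG D') (avg_inv _)
    (Fintype.card G * b)
  refine ⟨rs y, rs_integral h1, fun u w => ?_, ?_⟩
  · rw [frm_rs, h2, avg_exH hR hj hρ hi]
    unfold cr
    push_cast
    ring
  · rw [coef_rs, h3]
    unfold cr
    push_cast
    ring

end avg

end Pool.Agent.H899.RG
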