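import Pool.Agent.H899.RG.Fin

/-!
# The fundamental domain
-/

set_option autoImplicit false
set_option maxHeartbeats 400000

namespace Pool.Agent.H899.RG

open Pool.Agent.H899.ER (NRs NR form coef integral semiample effective span nefCone effCone nefEff
  IsPullback IsOver IsAutGroup HasDomain incl Stable)

open Filter Topology
open Pool.Agent.W594.SYZ2 (IsHermitian)
open Pool.Agent.R895 (BlBundle act N1 N1s IsClass Normalizes)
open Pool.Agent.T6.H34.GK (Lat kum IsGau std frm kap Nf Dat IsExt exH exH_herm exH_int co mem_co frm_add frm_smul frm_sub frm_zero form_frm N1_ext' kap_ne kap_pos re_natMul frm_herm std_dat std_herm std_int std_pos std_nonneg one_le_std le_std xi exists_ker lat dat_of_isInt re_kap_div lat_single cut_int exists_vectors)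
open Pool.Agent.R324.MovBl (cone_scale)
open Pool.Agent.Y167 (AffGrp cone CData Pol Cp cone_ind cone_add cone_smul cone_sum cone_le
  mem_cone_self mem_cone_of_sum zero_mem_cone cone_mono)
open Pool.Agent.Y167.CC (LinGrp Preserves IsFundDomain)
open Pool.Agent.T6.H34.EK (QBundle NS NSs IsCls)
open Pool.Agent.T6.H34.GE (PresLat grp res c0 c0_pos c0_real avg avg_dat avg_inv avg_re avg_of_inv Inv std_le_avg re_twice)

variable {n r : ℕ} {G : Subgroup ((Fin n → ℂ) ≃ₗ[ℂ] (Fin n → ℂ))} {hG : PresLat G}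
  {j : (Fin r → ℂ) →ₗ[ℂ] (Fin n → ℂ)} {ρ : Fin r → Fin n}
  {K : Subgroup ((Fin r → ℂ) ≃ₗ[ℂ] (Fin r → ℂ))}

/-- **The relative cone conjecture**, general form. -/
theorem core [Fintype G] [Fintype K] (hn : OkR ρ) (hr : 0 < r)
    (hG : PresLat G) (hK : PresLat K) (hR : Restr G j K) (hj : IsExt ρ j)
    (hρ : Function.Injective ρ) (𝒢 : LinGrp (NR (grp G hG) j)) (h𝒢 : IsAutGroup 𝒢) :
    HasDomain 𝒢 := by
  classical
  have hne : Nonempty (Fin n) := ⟨ρ ⟨0, hr⟩⟩
  have hn0 : 0 < n := Fin.pos_iff_nonempty.2 hne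
  obtain ⟨y₀, hy0, hy1, hy2⟩ := exists_y₀ hG hK hR hj hρ
  obtain ⟨Y, D⟩ := exists_cdata hj hρ hn0 hr hy0 hy1 hy2
  obtain ⟨F₁, hF₁, hcov⟩ := covering hG hK hR hj hρ
  have hcc := cr_real (G := G)
  have h𝒢L : ∀ g ∈ 𝒢, ∀ x ∈ LR hG j, g x ∈ LR hG j := fun g hg x hx =>
    closure_map (h𝒢.int g hg) hx
  have hre : ∀ v : Fin r → ℂ, (frm (up y₀) v v).re = cr G * (2 * (avg K std v v).re) := by
    intro v
    rw [hy1, re_twice]
  have hpd : ∀ (t : ℝ) (x : NR (grp G hG) j), 0 < t → x - t • y₀ ∈ NfR hG j →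
      x ∈ NfR hG j ∧ ∃ t : ℝ, 0 < t ∧ ∀ v, t * (std v v).re ≤ (frm (up x) v v).re := by
    intro t x ht hx
    have h4 : x = (x - t • y₀) + t • y₀ := by abel
    refine ⟨?_, t * (cr G * 2), by positivity, fun v => ?_⟩
    · rw [h4]
      exact NfR_add hx (NfR_smul ht.le D.y_N)
    · rw [h4, up_add, up_smul, frm_add, Complex.add_re, frm_smul, Complex.re_ofReal_mul, hre]
      have h5 := hx.1 v
      have h6 := std_le_avg (G := K) v
      have h7 : t * (cr G * 2) * (std v v).re ≤ t * (cr G * 2) * (avg K std v v).re :=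
        mul_le_mul_of_nonneg_left h6 (by positivity)
      linarith
  have hadd : ∀ x ∈ NfR hG j, ∀ t : ℝ, 0 < t → x + t • y₀ ∈ nefEff (grp G hG) j := by
    intro x hx t ht
    obtain ⟨k1, k2⟩ := hpd t (x + t • y₀) ht (by rwa [add_sub_cancel_right])
    refine Cp_le hn hK hR hj hρ (Cp_of_up hK hR hj hρ ?_)
    rw [mem_NfR] at k1
    exact Pool.Agent.T6.H34.GK.Cp_of_pd hj hρ k1 k2
  have h𝒢N : ∀ g ∈ 𝒢, ∀ x ∈ NfR hG j, g x ∈ NfR hG j := by
    intro g hg x hx
    refine mem_closed (y := g y₀) isClosed_NfR fun n => ?_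
    have h4 := h𝒢.nef_eff g hg _ (hadd x hx (1 / ((n : ℝ) + 1)) (by positivity))
    rw [map_add, map_smul] at h4
    exact nefCone_le hj hρ h4.1
  obtain ⟨S, hS1, hS2, hS3⟩ := D.domain 𝒢 h𝒢L h𝒢N F₁ hF₁ (by
    rintro x ⟨t, ht, hx⟩
    obtain ⟨k1, k2⟩ := hpd t x ht hx
    obtain ⟨f, g, hf1, hf2, hf3, hgx⟩ := hcov x k1 k2
    exact ⟨g, h𝒢.lin f g hf1 hf2 hf3, hgx⟩)
  have hcone' : cone (S.image fun a => (cr G : ℝ) • a) = cone S := cone_scale hcc S
  refine ⟨S.image fun a => (cr G : ℝ) • a, ?_, ?_, ?_, ?_⟩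
  · intro a ha
    obtain ⟨a', ha', rfl⟩ := Finset.mem_image.1 ha
    exact cr_int hR hj hρ (hS1 a' ha').1 (hS1 a' ha').2
  · rw [hcone']
    intro x hx
    exact Cp_le hn hK hR hj hρ ⟨S, hS1, hx⟩
  · ext x
    rw [← mem_Cp_iff hn hK hR hj hρ, hS2, hcone', Set.mem_iUnion₂]
    constructor
    · rintro ⟨g, hg, hgx⟩
      exact ⟨g⁻¹, 𝒢.inv_mem hg, g x, hgx, g.symm_apply_apply x⟩
    · rintro ⟨g, hg, y, hy, rfl⟩
      refine ⟨g⁻¹, 𝒢.inv_mem hg, ?_⟩
      have : (g⁻¹ : NR (grp G hG) j ≃ₗ[ℝ] NR (grp G hG) j) (g y) = y := g.symm_apply_apply y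
      rwa [this]
  · intro g hg hg1
    rw [hcone', Set.eq_empty_iff_forall_notMem]
    obtain ⟨φ, hφ0, hφ1, hφ2⟩ := hS3 g hg hg1
    rintro x ⟨hx, y, hy, rfl⟩
    have h4 := hφ2 y hy
    obtain ⟨w, hw⟩ : ∃ w, 0 < φ w := by
      by_contra hcon
      push Not at hcon
      apply hφ0
      ext w
      have e1 := hcon w
      have e2 := hcon (-w)
      rw [map_neg] at e2
      change φ w = 0
      linarith
    have hcont : Continuous fun t : ℝ => g y - t • w := by fun_prop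
    have hmem : ∀ᶠ t : ℝ in 𝓝 0, g y - t • w ∈ interior (cone S) := by
      apply hcont.continuousAt.eventually_mem
      rw [zero_smul, sub_zero]
      exact isOpen_interior.mem_nhds hx
    obtain ⟨ε, hε, hball⟩ := Metric.eventually_nhds_iff.1 hmem
    have h5 := interior_subset (hball (y := ε / 2) (by
      rw [Real.dist_eq, sub_zero, abs_of_pos (by linarith)]
      linarith))
    have h6 := hφ1 _ h5
    rw [map_sub, map_smul, smul_eq_mul] at h6
    have h7 : 0 < ε / 2 * φ w := by positivity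
    linarith

end Pool.Agent.H899.RG
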