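import Pool.Agent.H899.RG.Lift
import Pool.Graph.R_pool_sql_team_seeded_b0a926ef.R324.MovD

/-!
# The covering and the fundamental domain
-/

set_option autoImplicit false
set_option maxHeartbeats 400000

namespace Pool.Agent.H899.RG

open Pool.Agent.H899.ER (NRs NR form coef integral semiample effective span nefCone effCone nefEff
  IsPullback IsOver IsAutGroup HasDomain)

open Filter Topology
open Pool.Agent.W594.SYZ2 (IsHermitian)
open Pool.Agent.R895 (BlBundle act N1 N1s IsClass Normalizes)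
open Pool.Agent.T6.H34.GK (Lat kum IsGau std frm kap Nf Dat IsExt exH exH_herm exH_int co mem_co frm_add frm_smul frm_sub frm_zero form_frm N1_ext' kap_ne kap_pos re_natMul frm_herm std_dat std_herm std_int std_pos std_nonneg one_le_std le_std xi exists_ker lat dat_of_isInt re_kap_div lat_single cut_int exists_vectors)
open Pool.Agent.R324.MovBl (cone_scale)
open Pool.Agent.Y167 (AffGrp cone CData Pol Cp cone_ind cone_add cone_smul cone_sum cone_le
  mem_cone_self mem_cone_of_sum zero_mem_cone cone_mono)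
open Pool.Agent.Y167.CC (LinGrp Preserves IsFundDomain)
open Pool.Agent.T6.H34.EK (QBundle NS NSs IsCls)
open Pool.Agent.T6.H34.GE (PresLat grp res c0 c0_pos c0_real avg avg_dat avg_inv avg_re avg_of_inv Inv std_le_avg re_twice)

variable {n r : ℕ} {G : Subgroup ((Fin n → ℂ) ≃ₗ[ℂ] (Fin n → ℂ))} {hG : PresLat G}
  {j : (Fin r → ℂ) →ₗ[ℂ] (Fin n → ℂ)} {ρ : Fin r → Fin n}
  {K : Subgroup ((Fin r → ℂ) ≃ₗ[ℂ] (Fin r → ℂ))}

/-- The functional given by the lattice vector `w`. -/
noncomputable def phi (hG : PresLat G) (j : (Fin r → ℂ) →ₗ[ℂ] (Fin n → ℂ)) (w : Fin r → ℂ) :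
    NR (grp G hG) j →ₗ[ℝ] ℝ := (Pool.Agent.T6.H34.GK.phi 1 j w) ∘ₗ upL

theorem phi_apply (w : Fin r → ℂ) (x : NR (grp G hG) j) :
    phi hG j w x = (frm (up x) w w).re - coef x := rfl

section gens

variable [Fintype G] {F : Finset ((Fin r → ℂ) → (Fin r → ℂ) → ℂ)}
  {y : ((Fin r → ℂ) → (Fin r → ℂ) → ℂ) → NR (grp G hG) j} {e : NR (grp G hG) j}

/-- The elements of the cone spanned by the forms in `F` and the class of `-Ẽ`. -/
theorem eq_sum (hy2 : ∀ z ∈ F, ∀ v w, frm (up (y z)) v w = cr G * z v w)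
    (hy3 : ∀ z ∈ F, coef (y z) = 0)
    (he2 : ∀ v w, frm (up e) v w = 0) (he3 : coef e = cr G)
    (c : ((Fin r → ℂ) → (Fin r → ℂ) → ℂ) → ℝ) {x : NR (grp G hG) j}
    (hx : ∀ v w, frm (up x) v w = ∑ z ∈ F, (c z : ℂ) * z v w) :
    x = (coef x / cr G) • e + ∑ z ∈ F, (c z / cr G) • y z := by
  classical
  have hc0 : (cr G : ℝ) ≠ 0 := (cr_real (G := G)).ne'
  have hc0' : (cr G : ℂ) ≠ 0 := cr_ne
  have hfs : ∀ (s : Finset ((Fin r → ℂ) → (Fin r → ℂ) → ℂ)) (v w : Fin r → ℂ), s ⊆ F →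
      frm (up (∑ z ∈ s, (c z / cr G) • y z)) v w = ∑ z ∈ s, (c z : ℂ) * z v w := by
    intro s v w
    induction s using Finset.induction_on with
    | empty => intro _; rw [Finset.sum_empty, Finset.sum_empty, up_zero, frm_zero]
    | insert z s hz ih =>
      intro hs
      rw [Finset.sum_insert hz, Finset.sum_insert hz, up_add, frm_add,
        ih fun a ha => hs (Finset.mem_insert_of_mem ha), up_smul, frm_smul,
        hy2 z (hs (Finset.mem_insert_self _ _))]
      push_cast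
      field_simp
  have hcs : ∀ s : Finset ((Fin r → ℂ) → (Fin r → ℂ) → ℂ), s ⊆ F →
      coef (∑ z ∈ s, (c z / cr G) • y z) = 0 := by
    intro s
    induction s using Finset.induction_on with
    | empty => intro _; rw [Finset.sum_empty, coef_zero]
    | insert z s hz ih =>
      intro hs
      rw [Finset.sum_insert hz, coef_add, ih fun a ha => hs (Finset.mem_insert_of_mem ha),
        coef_smul, hy3 z (hs (Finset.mem_insert_self _ _))]
      ring
  refine NR_ext (fun v w => ?_) ?_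
  · rw [hx, up_add, frm_add, hfs F v w (Finset.Subset.refl _), up_smul, frm_smul, he2, mul_zero,
      zero_add]
  · rw [coef_add, hcs F (Finset.Subset.refl _), coef_smul, he3]
    field_simp
    ring

theorem cone_props [DecidableEq (NR (grp G hG) j)] (hF : ∀ z ∈ F, Dat z ∧ ∀ v, 0 ≤ (z v v).re)
    (hy2 : ∀ z ∈ F, ∀ v w, frm (up (y z)) v w = cr G * z v w)
    (hy3 : ∀ z ∈ F, coef (y z) = 0)
    (he2 : ∀ v w, frm (up e) v w = 0) (he3 : coef e = cr G) {a : NR (grp G hG) j}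
    (ha : a ∈ cone (insert e (F.image y))) : (∀ v, 0 ≤ (frm (up a) v v).re) ∧ 0 ≤ coef a ∧
      ∀ w t : Fin r → ℂ, (∀ z ∈ F, (z t t).re ≤ (z w w).re) →
        (frm (up a) t t).re ≤ (frm (up a) w w).re := by
  have hc0 := cr_real (G := G)
  refine cone_ind (p := fun a => (∀ v, 0 ≤ (frm (up a) v v).re) ∧ 0 ≤ coef a ∧
    ∀ w t : Fin r → ℂ, (∀ z ∈ F, (z t t).re ≤ (z w w).re) →
      (frm (up a) t t).re ≤ (frm (up a) w w).re) ?_ ?_ ?_ ?_ ha
  · refine ⟨fun v => ?_, le_of_eq coef_zero.symm, fun w t _ => ?_⟩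
    · rw [up_zero, frm_zero, Complex.zero_re]
    · rw [up_zero, frm_zero, frm_zero]
  · rintro x y ⟨h1, h2, h3⟩ ⟨k1, k2, k3⟩
    refine ⟨fun v => ?_, by rw [coef_add]; exact add_nonneg h2 k2, fun w t hwt => ?_⟩
    · rw [up_add, frm_add, Complex.add_re]
      exact add_nonneg (h1 v) (k1 v)
    · rw [up_add, frm_add, frm_add, Complex.add_re, Complex.add_re]
      exact add_le_add (h3 w t hwt) (k3 w t hwt)
  · rintro s x hs ⟨h1, h2, h3⟩
    refine ⟨fun v => ?_, by rw [coef_smul]; exact mul_nonneg hs h2, fun w t hwt => ?_⟩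
    · rw [up_smul, frm_smul, Complex.re_ofReal_mul]
      exact mul_nonneg hs (h1 v)
    · rw [up_smul, frm_smul, frm_smul, Complex.re_ofReal_mul, Complex.re_ofReal_mul]
      exact mul_le_mul_of_nonneg_left (h3 w t hwt) hs
  · intro a ha
    rcases Finset.mem_insert.1 ha with rfl | h
    · refine ⟨fun v => ?_, by rw [he3]; exact hc0.le, fun w t _ => ?_⟩
      · rw [he2, Complex.zero_re]
      · rw [he2, he2]
    · obtain ⟨z, hz, rfl⟩ := Finset.mem_image.1 h
      refine ⟨fun v => ?_, by rw [hy3 z hz], fun w t hwt => ?_⟩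
      · rw [hy2 z hz, re_cr]
        exact mul_nonneg hc0.le ((hF z hz).2 v)
      · rw [hy2 z hz, hy2 z hz, re_cr, re_cr]
        exact mul_le_mul_of_nonneg_left (hwt z hz) hc0.le

end gens

theorem NfR_of {g : NR (grp G hG) j ≃ₗ[ℝ] NR (grp G hG) j}
    {u : (Fin r → ℂ) ≃ₗ[ℂ] (Fin r → ℂ)} (hu : ∀ v, Lat v → Lat (u v))
    (h1 : ∀ x v w, form (g x) v w = form x (u v) (u w)) (h2 : ∀ x, coef (g x) = coef x)
    {x : NR (grp G hG) j} (hx : x ∈ NfR hG j) : g x ∈ NfR hG j := by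
  have h3 : ∀ v w, frm (up (g x)) v w = frm (up x) (u v) (u w) := by
    intro v w
    unfold frm
    rw [form_up, form_up, h1]
  obtain ⟨k1, k2, k3⟩ := hx
  refine ⟨fun v => ?_, by rw [coef_up, h2]; exact k2, fun v hv hv0 => ?_⟩
  · rw [h3]
    exact k1 _
  · rw [h3, coef_up, h2]
    exact k3 _ (hu v hv) (by simpa using hv0)

/-- **The covering.** -/
theorem covering [Fintype G] [Fintype K] [Nonempty (Fin n)] (hG : PresLat G) (hK : PresLat K)
    (hR : Restr G j K) (hj : IsExt ρ j) (hρ : Function.Injective ρ) :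
    ∃ F₁ : Finset (NR (grp G hG) j),
      (∀ a ∈ F₁, a ∈ LR hG j ∧ a ∈ NfR hG j) ∧
      ∀ x ∈ NfR hG j, (∃ t : ℝ, 0 < t ∧ ∀ v, t * (std v v).re ≤ (frm (up x) v v).re) →
        ∃ (f : (Fin n → ℂ) ≃ₗ[ℂ] (Fin n → ℂ)) (g : NR (grp G hG) j ≃ₗ[ℝ] NR (grp G hG) j),
          Normalizes (grp G hG) f ∧ IsOver j f ∧ IsPullback f g ∧ g x ∈ cone F₁ := by
  classical
  obtain ⟨F, hF', hred⟩ := red_cls hG hK hR hj (N := Fintype.card G) Fintype.card_pos
  have hF : ∀ z ∈ F, Dat z ∧ ∀ v, 0 ≤ (z v v).re := fun z hz => (hF' z hz).1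
  choose! y hy1 hy2 hy3' using fun z (hz : z ∈ F) =>
    exists_cls hG hR hj hρ (hF z hz).1 (hF' z hz).2 0
  have hy3 : ∀ z ∈ F, coef (y z) = 0 := fun z hz => by rw [hy3' z hz]; norm_num
  have hzero : Dat fun _ _ : Fin r → ℂ => (0 : ℂ) :=
    ⟨⟨fun _ _ _ => by simp, fun _ _ _ => by simp, fun _ _ => by simp⟩, fun _ _ _ _ => IsGau.zero⟩
  obtain ⟨e, he1, he2', he3'⟩ := exists_cls hG hR hj hρ hzero (fun _ _ _ _ => rfl) 1
  have he2 : ∀ v w, frm (up e) v w = 0 := fun v w => by rw [he2', mul_zero]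
  have he3 : coef e = cr G := by rw [he3']; norm_num
  obtain ⟨T, hT, hTle⟩ := exists_vectors F hF
  have hS₀L : ∀ a ∈ insert e (F.image y), a ∈ LR hG j := by
    intro a ha
    rcases Finset.mem_insert.1 ha with rfl | h
    · exact AddSubgroup.subset_closure he1
    · obtain ⟨z, hz, rfl⟩ := Finset.mem_image.1 h
      exact AddSubgroup.subset_closure (hy1 z hz)
  obtain ⟨S', hS', hS'c⟩ := cut_int (insert e (F.image y)) hS₀L (T.image (phi hG j)) (by
    intro φ hφ x hx
    obtain ⟨t, ht, rfl⟩ := Finset.mem_image.1 hφ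
    obtain ⟨D, n, hn⟩ := dat_of_LR hj hx
    obtain ⟨k, hk⟩ := D.val (hT t ht).1
    exact ⟨k - n, by rw [phi_apply, hk, hn]; push_cast; rfl⟩)
  refine ⟨S', fun a ha => ⟨hS' a ha, ?_⟩, ?_⟩
  · obtain ⟨h1, h2⟩ := (hS'c a).1 (mem_cone_self ha)
    obtain ⟨k1, k2, k3⟩ := cone_props hF hy2 hy3 he2 he3 h1
    refine ⟨k1, k2, fun w hw hw0 => ?_⟩
    obtain ⟨t, ht, hle⟩ := hTle w hw hw0
    refine le_trans ?_ (k3 w t hle)
    have h3 := h2 _ (Finset.mem_image_of_mem (phi hG j) ht)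
    rw [phi_apply] at h3
    rw [coef_up]
    linarith
  · intro x hx hpd
    obtain ⟨u, hu1, hu2, c, hc, hsum⟩ := hred x hpd
    have hu1' := hu1.symm
    have hu2' : Cong (Fintype.card G) u.symm := hu2.symm hu1.lat'
    have hnm := le_norm (ρ := ρ) hG hK hR hj hρ hu1' hu2'
    obtain ⟨g, g1, g2, g3⟩ := exists_pull (hj.inj hρ) hnm (le_j hR hj hρ u.symm)
    have hgx : ∀ v w, frm (up (g x)) v w = ∑ z ∈ F, (c z : ℂ) * z v w := by
      intro v w
      have h2 : frm (up (g x)) v w = frm (up x) (u.symm v) (u.symm w) := by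
        unfold frm
        rw [form_up, form_up, g2]
      rw [h2, hsum]
      refine Finset.sum_congr rfl fun z _ => ?_
      rw [u.apply_symm_apply, u.apply_symm_apply]
    have h1 := eq_sum hy2 hy3 he2 he3 c hgx
    have hcc := cr_real (G := G)
    have hc0 : 0 ≤ coef (g x) / cr G := by
      rw [g3]
      exact div_nonneg hx.2.1 hcc.le
    refine ⟨_, g, hnm, le_over hR hj hρ u.symm, g1, (hS'c _).2 ⟨?_, fun φ hφ => ?_⟩⟩
    · rw [h1]
      refine cone_add (cone_smul (mem_cone_self (Finset.mem_insert_self _ _)) hc0)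
        (mem_cone_of_sum F _ _ (fun z hz => Finset.mem_insert_of_mem
          (Finset.mem_image_of_mem _ hz)) fun z _ => div_nonneg (hc z) hcc.le)
    · obtain ⟨t, ht, rfl⟩ := Finset.mem_image.1 hφ
      rw [phi_apply]
      have := (NfR_of hu1'.lat g2 g3 hx).2.2 t (hT t ht).1 (hT t ht).2
      rw [coef_up] at this
      linarith

/-- The group generated by the integral classes is preserved. -/
theorem closure_map {g : NR (grp G hG) j ≃ₗ[ℝ] NR (grp G hG) j}
    (hg : ∀ x ∈ integral (grp G hG) j, g x ∈ integral (grp G hG) j) {x : NR (grp G hG) j}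
    (hx : x ∈ LR hG j) : g x ∈ LR hG j := by
  have h1 : LR hG j ≤ (LR hG j).comap
      (g : NR (grp G hG) j ≃+ NR (grp G hG) j).toAddMonoidHom := by
    rw [AddSubgroup.closure_le]
    intro x hx
    exact AddSubgroup.subset_closure (hg x hx)
  exact h1 hx

/-- A multiple of an element of the group generated by the integral classes is integral, if it lies
in the nef cone. -/
theorem cr_int [Fintype G] [Nonempty (Fin n)] (hR : Restr G j K) (hj : IsExt ρ j)
    (hρ : Function.Injective ρ) {a : NR (grp G hG) j} (ha : a ∈ LR hG j) (haN : a ∈ NfR hG j) :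
    (cr G : ℝ) • a ∈ integral (grp G hG) j := by
  obtain ⟨D, k, hk⟩ := dat_of_LR hj ha
  obtain ⟨b, hb⟩ := coef_nat haN hk
  obtain ⟨y, h1, h2, h3⟩ := exists_cls hG hR hj hρ D (frm_inv hR a) b
  have h4 : (cr G : ℝ) • a = y := by
    refine NR_ext (fun u w => ?_) ?_
    · rw [h2, up_smul, frm_smul]
      push_cast
      ring
    · rw [h3, coef_smul, hb]
  rw [h4]
  exact h1

end Pool.Agent.H899.RG
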