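import Pool.Agent.H899.RG.Cls0

/-!
# Averages of sums of squares of integral linear functions
-/

set_option autoImplicit false

namespace Pool.Agent.H899.RG

open Pool.Agent.H899.ER (NRs NR form coef integral semiample effective span nefCone effCone nefEff
  IsPullback IsOver IsAutGroup HasDomain)

open Matrix hiding IsHermitian
open Pool.Agent.W594.SYZ2 (IsHermitian)
open Pool.Agent.T6.H34.GK (sq Lat IsGau Dat Pd Psd q IsLat IsSub RC exH exA exH_herm exH_int exH_eq mx mx_q mx_eis lsq sum_lsq dec_of_multiset exists_sub_card Dec RC_psd exA_mem_of exA_mem_of' ext ext_dot ext_apply co mem_co single_dot lat_star exists_single exists_single' isSub_eis isSub_zero lat_single)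
open Pool.Agent.T6.H34.GE (PresLat avg)

/-- The decompositions into sums of squares exist in rank `r`, and `ρ` is not surjective. -/
structure OkR {n r : ℕ} (ρ : Fin r → Fin n) : Prop where
  lt : ∀ {H : Matrix (Fin r) (Fin r) ℂ}, Pd H → (∀ i j, IsGau (H i j)) → ∀ {b h : ℝ}, 0 ≤ b →
    b < h → (∀ w, IsLat w → w ≠ 0 → h ≤ q H w) → ∀ {J : Set (Fin r → ℂ)}, IsSub J →
    (∃ v, IsLat v ∧ v ∉ J) → ((fun i j => H i j : Fin r → Fin r → ℂ), b) ∈ RC J
  co : ∃ i, i ∈ co ρ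

/-- The case of rank one. -/
theorem one_aux {H : Matrix (Fin 1) (Fin 1) ℂ} (hH : Pd H) (hHe : ∀ i j, IsGau (H i j)) {h : ℝ}
    (hmin : ∀ w, IsLat w → w ≠ 0 → h ≤ q H w) {J : Set (Fin 1 → ℂ)}
    (hJ : (fun _ => 1 : Fin 1 → ℂ) ∉ J) : ((fun i j => H i j : Fin 1 → Fin 1 → ℂ), h) ∈ RC J := by
  have h1 : IsLat (fun _ => 1 : Fin 1 → ℂ) := fun _ => IsGau.one
  have h2 : (fun _ => 1 : Fin 1 → ℂ) ≠ 0 := fun h => one_ne_zero (congrFun h 0)
  have hq : ∀ w : Fin 1 → ℂ, q H w = Complex.normSq (w 0) * (H 0 0).re := by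
    intro w
    unfold q
    simp only [dotProduct, mulVec, Finset.univ_unique, Fin.default_eq_zero, Finset.sum_singleton,
      Pi.star_apply]
    have h5 : (H 0 0).im = 0 := by
      have := congrFun (congrFun hH.1 0) 0
      rw [conjTranspose_apply] at this
      have h6 := congrArg Complex.im this
      simp at h6
      linarith
    have h6 : star (w 0) = (starRingEnd ℂ) (w 0) := rfl
    rw [h6, Complex.normSq_apply]
    simp only [Complex.mul_re, Complex.conj_re, Complex.conj_im, Complex.mul_im, h5]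
    ring
  obtain ⟨k, hk⟩ := (hHe 0 0).real (by
    have := congrFun (congrFun hH.1 0) 0
    rw [conjTranspose_apply] at this
    have h6 := congrArg Complex.im this
    simp at h6
    linarith)
  have h3 := hmin _ h1 h2
  rw [hq] at h3
  have h4 := hH.2 _ h2
  rw [hq] at h4
  simp only [Complex.normSq_one, one_mul] at h3 h4
  have hk' : (H 0 0).re = k := by rw [hk]; simp
  rw [hk'] at h3 h4
  have hk0 : 0 < k := by exact_mod_cast h4
  obtain ⟨n, rfl⟩ := Int.eq_ofNat_of_zero_le hk0.le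
  refine RC.mono (β := n) ?_ (by exact_mod_cast h3)
  have h5 := RC.nsmul n (RC.sq_mem' (J := J) h1 hJ)
  have h6 : (n : ℝ) • ((Pool.Agent.T6.H34.GK.sq (fun _ => 1 : Fin 1 → ℂ), (1 : ℝ)) :
      (Fin 1 → Fin 1 → ℂ) × ℝ) = ((fun i j => H i j : Fin 1 → Fin 1 → ℂ), (n : ℝ)) := by
    refine Prod.ext ?_ ?_
    · funext i j
      have hi : i = 0 := Subsingleton.elim _ _
      have hj : j = 0 := Subsingleton.elim _ _
      subst hi
      subst hj
      rw [Prod.smul_fst]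
      simp only [Pi.smul_apply, Pool.Agent.T6.H34.GK.sq, star_one, mul_one, Complex.real_smul]
      rw [hk]
      simp
    · rw [Prod.smul_snd]
      simp
  rwa [h6] at h5

section two

variable {H : Matrix (Fin 2) (Fin 2) ℂ}

/-- The extension of a form of rank two to a form of rank three. -/
noncomputable def ex3 (H : Matrix (Fin 2) (Fin 2) ℂ) (c : ℂ) : Matrix (Fin 3) (Fin 3) ℂ :=
  !![H 0 0, H 0 1, 0; H 1 0, H 1 1, 0; 0, 0, c]

theorem q_ex3 (c : ℕ) (w : Fin 3 → ℂ) :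
    q (ex3 H c) w = q H (fun i => w i.castSucc) + c * Complex.normSq (w 2) := by
  have h1 : star (w 2) * ((c : ℂ) * w 2) = ((c * Complex.normSq (w 2) : ℝ) : ℂ) := by
    have h2 : star (w 2) = (starRingEnd ℂ) (w 2) := rfl
    rw [h2]
    push_cast
    rw [← Complex.mul_conj]
    ring
  unfold q ex3
  simp only [dotProduct, mulVec, Fin.sum_univ_three, Fin.sum_univ_two, Pi.star_apply]
  simp only [Matrix.of_apply, Matrix.cons_val', Matrix.cons_val_zero, Matrix.cons_val_one,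
    Matrix.cons_val_two, Matrix.empty_val', Matrix.cons_val_fin_one, Matrix.head_cons,
    Matrix.tail_cons, Matrix.head_fin_const, zero_mul, add_zero, zero_add]
  rw [h1, Complex.add_re, Complex.ofReal_re]
  rfl

theorem isLat_cast {w : Fin 3 → ℂ} (hw : IsLat w) : IsLat fun i : Fin 2 => w i.castSucc :=
  fun _ => hw _

theorem cast_ne {w : Fin 3 → ℂ} (hw : w ≠ 0) (h0 : (fun i : Fin 2 => w i.castSucc) = 0) :
    w 2 ≠ 0 := by
  intro h2
  apply hw
  funext i
  refine Fin.lastCases ?_ (fun a => ?_) i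
  · exact h2
  · exact congrFun h0 a

theorem sum_app {k : ℕ} (S : Multiset (Fin k → ℂ)) (a b : Fin k) :
    (S.map sq).sum a b = (S.map fun l => sq l a b).sum := by
  induction S using Multiset.induction_on with
  | empty => simp
  | cons l S ih =>
    rw [Multiset.map_cons, Multiset.sum_cons, Multiset.map_cons, Multiset.sum_cons, ← ih]
    rfl

theorem RC_two (hH : Pd H) (hHe : ∀ i j, IsGau (H i j)) {b h : ℝ} (hb : 0 ≤ b)
    (hbh : b < h) (hmin : ∀ w, IsLat w → w ≠ 0 → h ≤ q H w) {J : Set (Fin 2 → ℂ)} (hJ : IsSub J)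
    (hne : ∃ v, IsLat v ∧ v ∉ J) : ((fun i j => H i j : Fin 2 → Fin 2 → ℂ), b) ∈ RC J := by
  obtain ⟨c, hc⟩ := exists_nat_ge h
  have hh : 0 < h := lt_of_le_of_lt hb hbh
  have hc0 : (0 : ℝ) < c := lt_of_lt_of_le hh hc
  have hherm : (ex3 H c).IsHermitian := by
    have h1 : ∀ i j, star (H j i) = H i j := fun i j => by
      have := congrFun (congrFun hH.1 i) j
      rwa [conjTranspose_apply] at this
    ext i j
    rw [conjTranspose_apply]
    fin_cases i <;> fin_cases j <;> simp [ex3] <;>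
      exact h1 _ _
  have hpd : Pd (ex3 H c) := by
    refine ⟨hherm, fun x hx => ?_⟩
    rw [q_ex3]
    by_cases h0 : (fun i : Fin 2 => x i.castSucc) = 0
    · have h1 := Complex.normSq_pos.2 (cast_ne hx h0)
      have h2 : q H (fun i => x i.castSucc) = 0 := by
        rw [h0]
        unfold q
        simp
      rw [h2, zero_add]
      positivity
    · have h1 := hH.2 _ h0
      have h2 := Complex.normSq_nonneg (x 2)
      positivity
  have hgau : ∀ i j, IsGau (ex3 H c i j) := by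
    intro i j
    fin_cases i <;> fin_cases j <;>
      first
        | exact hHe _ _
        | exact IsGau.zero
        | exact IsGau.natCast c
  have hmin3 : ∀ w, IsLat w → w ≠ 0 → h ≤ q (ex3 H c) w := by
    intro w hw hw0
    rw [q_ex3]
    by_cases h0 : (fun i : Fin 2 => w i.castSucc) = 0
    · have h1 := IsGau.one_le_normSq (hw 2) (cast_ne hw0 h0)
      have h2 : q H (fun i => w i.castSucc) = 0 := by
        rw [h0]
        unfold q
        simp
      rw [h2, zero_add]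
      nlinarith
    · have h1 := hmin _ (isLat_cast hw) h0
      have h2 := Complex.normSq_nonneg (w 2)
      have h3 := mul_nonneg hc0.le h2
      linarith
  have hJ3 : IsSub {l : Fin 3 → ℂ | (fun i : Fin 2 => l i.castSucc) ∈ J} :=
    ⟨hJ.zero, fun x hx y hy => hJ.add _ hx _ hy, fun a ha x hx => hJ.smul a ha _ hx⟩
  obtain ⟨v, hv, hvJ⟩ := hne
  have hne3 : ∃ w : Fin 3 → ℂ, IsLat w ∧ w ∉ {l : Fin 3 → ℂ | (fun i : Fin 2 => l i.castSucc) ∈ J} := by
    refine ⟨Fin.snoc v 0, fun i => ?_, fun h => hvJ ?_⟩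
    · refine Fin.lastCases ?_ (fun i => ?_) i
      · rw [Fin.snoc_last]
        exact IsGau.zero
      · rw [Fin.snoc_castSucc]
        exact hv i
    · have h' : (fun i : Fin 2 => (Fin.snoc v 0 : Fin 3 → ℂ) i.castSucc) ∈ J := h
      have h1 : (fun i : Fin 2 => (Fin.snoc v 0 : Fin 3 → ℂ) i.castSucc) = v := by
        funext i
        rw [Fin.snoc_castSucc]
      rwa [h1] at h'
  obtain ⟨N, S, hN, hS, hsum, T, hTS, hT, hcard⟩ :=
    Pool.Agent.T6.H34.GK.RC_of_lt3 hpd hgau hb hbh hmin3 hJ3 hne3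
  refine ⟨N, S.map fun l i => l i.castSucc, hN, ?_, ?_, T.map fun l i => l i.castSucc,
    Multiset.map_le_map hTS, ?_, ?_⟩
  · intro l hl
    obtain ⟨l', hl', rfl⟩ := Multiset.mem_map.1 hl
    exact isLat_cast (hS l' hl')
  · funext i j
    rw [sum_app, Multiset.map_map]
    have h1 := congrFun (congrFun hsum i.castSucc) j.castSucc
    rw [sum_app] at h1
    refine Eq.trans ?_ (h1.trans ?_)
    · simp only [Pi.smul_apply]
      fin_cases i <;> fin_cases j <;> rfl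
    · rfl
  · intro l hl
    obtain ⟨l', hl', rfl⟩ := Multiset.mem_map.1 hl
    exact hT l' hl'
  · rw [Multiset.card_map]
    exact hcard

end two

theorem okR {n r : ℕ} {ρ : Fin r → Fin n} (h1 : 1 ≤ r) (h3 : r ≤ 3) (hco : ∃ i, i ∈ co ρ) :
    OkR ρ := by
  refine ⟨fun {H} hH hHe {b h} hb hbh hmin {J} hJ hne => ?_, hco⟩
  interval_cases r
  · refine RC.mono (one_aux hH hHe hmin ?_) hbh.le
    intro h1
    obtain ⟨v, hv, hvJ⟩ := hne
    apply hvJ
    have h2 := hJ.smul (v 0) (hv 0) _ h1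
    have h3 : (v 0 • (fun _ => 1 : Fin 1 → ℂ)) = v := by
      funext i
      have hi : i = 0 := Subsingleton.elim _ _
      subst hi
      simp
    rwa [h3] at h2
  · exact RC_two hH hHe hb hbh hmin hJ hne
  · exact Pool.Agent.T6.H34.GK.RC_of_lt3 hH hHe hb hbh hmin hJ hne

section fc

variable {n : ℕ} {J : Set (Fin n → ℂ)}

/-- A positive multiple of the form `h` is a sum of squares of integral linear functions, of which
at least `β` (relative to the multiple) are not in `J`. -/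
def FC (h : (Fin n → ℂ) → (Fin n → ℂ) → ℂ) (β : ℝ) (J : Set (Fin n → ℂ)) : Prop :=
  ∃ (N : ℕ) (S : Multiset (Fin n → ℂ)), 1 ≤ N ∧ (∀ l ∈ S, Lat l) ∧
    (∀ u w, N * h u w = (S.map (lsq u w)).sum) ∧ ∃ T ≤ S, (∀ l ∈ T, l ∉ J) ∧ N * β ≤ T.card

theorem FC_of_RC {h : (Fin n → ℂ) → (Fin n → ℂ) → ℂ} {β : ℝ} {A : Fin n → Fin n → ℂ}
    (hA : (A, β) ∈ RC J)
    (hh : ∀ u w, h u w = ∑ i, ∑ k, A i k * (u i * (starRingEnd ℂ) (w k))) : FC h β J := by
  obtain ⟨N, S, hN, hS, hsum, T, hTS, hT, hc⟩ := hA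
  refine ⟨N, S, hN, hS, fun u w => ?_, T, hTS, hT, hc⟩
  rw [sum_lsq, ← hsum, hh]
  simp only [Pi.smul_apply, Finset.mul_sum]
  refine Finset.sum_congr rfl fun i _ => Finset.sum_congr rfl fun k _ => ?_
  rw [Complex.real_smul]
  push_cast
  ring

theorem dec_of_FC {h : (Fin n → ℂ) → (Fin n → ℂ) → ℂ} {b : ℕ} (H : FC h b J) : Dec h b J := by
  obtain ⟨N, S, hN, hS, hsum, T, hTS, hT, hc⟩ := H
  have hc' : N * b ≤ T.card := by exact_mod_cast hc
  obtain ⟨T', hT', hc2⟩ := exists_sub_card hc'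
  obtain ⟨U, rfl⟩ := Multiset.le_iff_exists_add.1 (hT'.trans hTS)
  refine dec_of_multiset N U T' hN (fun l hl => hS l (Multiset.mem_add.2 (Or.inr hl)))
    (fun l hl => ⟨hS l (Multiset.mem_add.2 (Or.inl hl)), hT l (Multiset.mem_of_le hT' hl)⟩) hc2
    fun u w => ?_
  rw [← Multiset.sum_add, ← Multiset.map_add, hsum]

theorem FC_zero : FC (fun _ _ : Fin n → ℂ => 0) 0 J :=
  ⟨1, 0, le_rfl, by simp, by simp, 0, le_rfl, by simp, by simp⟩

theorem FC_add {h h' : (Fin n → ℂ) → (Fin n → ℂ) → ℂ} {β β' : ℝ} (hx : FC h β J)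
    (hy : FC h' β' J) : FC (fun u w => h u w + h' u w) (β + β') J := by
  obtain ⟨N, S, h1, h2, h3, T, h4, h5, h6⟩ := hx
  obtain ⟨M, U, k1, k2, k3, V, k4, k5, k6⟩ := hy
  refine ⟨N * M, M • S + N • U, Nat.mul_pos h1 k1, ?_, fun u w => ?_, M • T + N • V, ?_, ?_, ?_⟩
  · intro l hl
    rcases Multiset.mem_add.1 hl with h | h
    · exact h2 l (Multiset.mem_of_mem_nsmul h)
    · exact k2 l (Multiset.mem_of_mem_nsmul h)
  · rw [Multiset.map_add, Multiset.sum_add, Multiset.map_nsmul, Multiset.map_nsmul,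
      Multiset.sum_nsmul, Multiset.sum_nsmul, ← h3, ← k3, nsmul_eq_mul, nsmul_eq_mul]
    push_cast
    ring
  · exact add_le_add (nsmul_le_nsmul_right h4 M) (nsmul_le_nsmul_right k4 N)
  · intro l hl
    rcases Multiset.mem_add.1 hl with h | h
    · exact h5 l (Multiset.mem_of_mem_nsmul h)
    · exact k5 l (Multiset.mem_of_mem_nsmul h)
  · rw [Multiset.card_add, Multiset.card_nsmul, Multiset.card_nsmul]
    push_cast
    have hN : (0 : ℝ) ≤ N := Nat.cast_nonneg _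
    have hM : (0 : ℝ) ≤ M := Nat.cast_nonneg _
    nlinarith [mul_le_mul_of_nonneg_left h6 hM, mul_le_mul_of_nonneg_left k6 hN]

theorem FC_sum {κ : Type*} (s : Finset κ) (f : κ → (Fin n → ℂ) → (Fin n → ℂ) → ℂ) {β : ℝ}
    (h : ∀ i ∈ s, FC (f i) β J) : FC (fun u w => ∑ i ∈ s, f i u w) (s.card * β) J := by
  classical
  induction s using Finset.induction_on with
  | empty => simpa using FC_zero (n := n) (J := J)
  | insert i s hi ih =>
    have h1 := FC_add (h i (Finset.mem_insert_self _ _))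
      (ih fun j hj => h j (Finset.mem_insert_of_mem hj))
    have h2 : (fun u w => ∑ j ∈ insert i s, f j u w) =
        fun u w => f i u w + ∑ j ∈ s, f j u w := by
      funext u w
      rw [Finset.sum_insert hi]
    rw [h2, Finset.card_insert_of_notMem hi]
    have h3 : (((s.card + 1 : ℕ) : ℝ)) * β = β + s.card * β := by push_cast; ring
    rw [h3]
    exact h1

/-- The transpose of a linear map. -/
noncomputable def tr (g : (Fin n → ℂ) ≃ₗ[ℂ] (Fin n → ℂ)) (l : Fin n → ℂ) : Fin n → ℂ := fun i =>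
  l ⬝ᵥ g (Pi.single i 1)

theorem tr_dot (g : (Fin n → ℂ) ≃ₗ[ℂ] (Fin n → ℂ)) (l u : Fin n → ℂ) :
    tr g l ⬝ᵥ u = l ⬝ᵥ g u := by
  have h1 : u = ∑ i, u i • (Pi.single i 1 : Fin n → ℂ) := by
    ext i
    simp [Finset.sum_apply, Pi.single_apply]
  conv_rhs => rw [h1]
  rw [map_sum, dotProduct_sum]
  unfold dotProduct tr
  refine Finset.sum_congr rfl fun i _ => ?_
  rw [map_smul]
  simp only [Pi.smul_apply, smul_eq_mul, dotProduct, Finset.sum_mul]
  exact Finset.sum_congr rfl fun k _ => by ring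

theorem tr_lat {g : (Fin n → ℂ) ≃ₗ[ℂ] (Fin n → ℂ)} (hg : ∀ v, Lat v → Lat (g v))
    {l : Fin n → ℂ} (hl : Lat l) : Lat (tr g l) := fun i => by
  unfold tr dotProduct
  exact IsGau.sum _ _ fun k _ => (hl k).mul (hg _ (lat_single i) k)

theorem FC_pull {h : (Fin n → ℂ) → (Fin n → ℂ) → ℂ} {β : ℝ} {J' : Set (Fin n → ℂ)}
    {g : (Fin n → ℂ) ≃ₗ[ℂ] (Fin n → ℂ)} (hg : ∀ v, Lat v → Lat (g v)) (hF : FC h β J')
    (hJ : ∀ l, tr g l ∈ J → l ∈ J') : FC (fun u w => h (g u) (g w)) β J := by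
  obtain ⟨N, S, hN, hS, hsum, T, hTS, hT, hc⟩ := hF
  refine ⟨N, S.map (tr g), hN, ?_, fun u w => ?_, T.map (tr g), Multiset.map_le_map hTS, ?_, ?_⟩
  · intro l hl
    obtain ⟨l', hl', rfl⟩ := Multiset.mem_map.1 hl
    exact tr_lat hg (hS l' hl')
  · rw [hsum, Multiset.map_map]
    refine congrArg _ (Multiset.map_congr rfl fun l _ => ?_)
    simp only [Function.comp_apply, lsq, tr_dot]
  · intro l hl
    obtain ⟨l', hl', rfl⟩ := Multiset.mem_map.1 hl
    exact fun h => hT l' hl' (hJ l' h)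
  · rw [Multiset.card_map]
    exact hc

end fc

variable {n r : ℕ} {ρ : Fin r → Fin n} {h : (Fin r → ℂ) → (Fin r → ℂ) → ℂ}

theorem single_mem {J : Set (Fin n → ℂ)} (i : Fin n) (a b : DecidableEq (Fin n))
    (h : @Pi.single (Fin n) (fun _ => ℂ) _ a i (1 : ℂ) ∈ J) :
    @Pi.single (Fin n) (fun _ => ℂ) _ b i (1 : ℂ) ∈ J := by
  rwa [Subsingleton.elim a b] at h

theorem FC_out (hr : OkR ρ) (D : Dat h) (b : ℕ) (hp : ∀ v, v ≠ 0 → 0 < (h v v).re)
    (hb : ∀ v, Lat v → v ≠ 0 → (b : ℝ) < (h v v).re) :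
    (∀ v : Fin n → ℂ, ¬Lat v → FC (exH ρ b h) b {l | IsGau (l ⬝ᵥ v)}) ∧
      ∀ u : Fin n → ℂ, u ≠ 0 → FC (exH ρ b h) b {l | l ⬝ᵥ u = 0} := by
  classical
  have hpsd : Psd (Matrix.of (mx h)) := (D.pd hp).psd
  have hmin : ∀ w, IsLat w → w ≠ 0 → (b : ℝ) + 1 ≤ q (Matrix.of (mx h)) w := by
    intro w hw hw0
    rw [mx_q D.herm]
    obtain ⟨n, hn⟩ := D.val (lat_star hw)
    have h1 := hb (star w) (lat_star hw) (by rwa [star_ne_zero])
    rw [hn] at h1 ⊢
    have h2 : (b : ℤ) < n := by exact_mod_cast h1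
    have h3 : (b : ℤ) + 1 ≤ n := h2
    exact_mod_cast h3
  have key1 : ∀ {J : Set (Fin n → ℂ)} {J' : Set (Fin r → ℂ)}, IsSub J' →
      (∃ l : Fin r → ℂ, IsLat l ∧ l ∉ J') → (∀ l, ext ρ l ∈ J → l ∈ J') →
      FC (exH ρ b h) b J := by
    intro J J' hJ' hne hJ
    refine FC_of_RC (exA_mem_of b (RC.lift (J' := J') ?_ hJ)) (exH_eq D.herm b)
    exact hr.lt (D.pd hp) (mx_eis D.int) (Nat.cast_nonneg b) (lt_add_one _) hmin hJ' hne
  have key2 : ∀ {J : Set (Fin n → ℂ)} {i : Fin n}, i ∈ co ρ → Pi.single i 1 ∉ J →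
      FC (exH ρ b h) b J := by
    intro J i hi hJ
    refine FC_of_RC (exA_mem_of' le_rfl (RC.lift (J' := Set.univ) ?_ fun _ _ => Set.mem_univ _)
      hi ?_) (exH_eq D.herm b)
    · exact RC_psd hpsd (mx_eis D.int)
    · exact fun h => hJ (single_mem i _ _ h)
  refine ⟨fun v hv => ?_, fun u hu => ?_⟩
  · by_cases h1 : Lat (v ∘ ρ)
    · obtain ⟨i, hi⟩ : ∃ i, ¬IsGau (v i) := by
        by_contra hcon
        push Not at hcon
        exact hv hcon
      refine key2 (i := i) ?_ ?_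
      · rw [mem_co]
        rintro a rfl
        exact hi (h1 a)
      · show ¬IsGau (Pi.single i 1 ⬝ᵥ v)
        rwa [single_dot]
    · refine key1 (isSub_eis (v ∘ ρ)) ?_ fun l hl => ?_
      · obtain ⟨l, hl1, hl2⟩ := exists_single h1
        exact ⟨l, hl1, hl2⟩
      · have : IsGau (ext ρ l ⬝ᵥ v) := hl
        rw [ext_dot] at this
        exact this
  · by_cases h1 : u ∘ ρ = 0
    · obtain ⟨i, hi⟩ := Function.ne_iff.1 hu
      refine key2 (i := i) ?_ ?_
      · rw [mem_co]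
        rintro a rfl
        exact hi (congrFun h1 a)
      · show ¬(Pi.single i 1 ⬝ᵥ u = 0)
        rw [single_dot]
        exact hi
    · refine key1 (isSub_zero (u ∘ ρ)) ?_ fun l hl => ?_
      · obtain ⟨l, hl1, hl2⟩ := exists_single' h1
        exact ⟨l, hl1, hl2⟩
      · have : ext ρ l ⬝ᵥ u = 0 := hl
        rw [ext_dot] at this
        exact this

theorem FC_sec (hr : OkR ρ) (D : Dat h) (b : ℕ)
    (hb : (∀ v, v ≠ 0 → 0 < (h v v).re) ∧ (∀ v, Lat v → v ≠ 0 → (b : ℝ) ≤ (h v v).re) ∨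
      b = 0 ∧ ∀ v, 0 ≤ (h v v).re) : FC (n := n) (exH ρ b h) b {0} := by
  classical
  have hpsd : Psd (Matrix.of (mx h)) := by
    rcases hb with ⟨hp, -⟩ | ⟨-, hp⟩
    · exact (D.pd hp).psd
    · exact D.psd hp
  obtain ⟨i, hi⟩ := hr.co
  refine FC_of_RC (exA_mem_of' le_rfl (RC.lift (J' := Set.univ) ?_ fun _ _ => Set.mem_univ _)
    hi ?_) (exH_eq D.herm b)
  · exact RC_psd hpsd (mx_eis D.int)
  · intro h0
    have h2 := congrFun (Set.mem_singleton_iff.1 h0) i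
    simp [Pi.single, Function.update] at h2

section avg

variable {G : Subgroup ((Fin n → ℂ) ≃ₗ[ℂ] (Fin n → ℂ))} [Fintype G]

theorem FC_avg {f : (Fin n → ℂ) → (Fin n → ℂ) → ℂ} {β : ℝ} {J : Set (Fin n → ℂ)}
    (hF : ∀ g : G, FC (fun u w => f ((g : (Fin n → ℂ) ≃ₗ[ℂ] (Fin n → ℂ)) u)
      ((g : (Fin n → ℂ) ≃ₗ[ℂ] (Fin n → ℂ)) w)) β J) :
    FC (avg G f) (Fintype.card G * β) J := by
  have h1 := FC_sum Finset.univ (fun (g : G) u w => f ((g : (Fin n → ℂ) ≃ₗ[ℂ] (Fin n → ℂ)) u)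
      ((g : (Fin n → ℂ) ≃ₗ[ℂ] (Fin n → ℂ)) w)) (fun g _ => hF g)
  rw [Finset.card_univ] at h1
  exact h1

/-- The average of the extended form gives a semiample line bundle. -/
theorem dec_avg (hG : PresLat G) (hr : OkR ρ) (D : Dat h) (b : ℕ)
    (hp : ∀ v, v ≠ 0 → 0 < (h v v).re) (hb : ∀ v, Lat v → v ≠ 0 → (b : ℝ) < (h v v).re) :
    (∀ v : Fin n → ℂ, ¬Lat v →
      Dec (avg G (exH ρ b h)) (Fintype.card G * b) {l | IsGau (l ⬝ᵥ v)}) ∧
      ∀ u : Fin n → ℂ, u ≠ 0 →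
        Dec (avg G (exH ρ b h)) (Fintype.card G * b) {l | l ⬝ᵥ u = 0} := by
  obtain ⟨h1, h2⟩ := FC_out (ρ := ρ) hr D b hp hb
  refine ⟨fun v hv => dec_of_FC ?_, fun u hu => dec_of_FC ?_⟩
  · rw [Nat.cast_mul]
    refine FC_avg fun g => FC_pull (fun w hw => hG g g.2 w hw)
      (h1 ((g : (Fin n → ℂ) ≃ₗ[ℂ] (Fin n → ℂ)) v) fun h =>
        hv ((Pool.Agent.T6.H34.GE.lat_equiv hG g.2).1 h)) fun l hl => ?_
    have hl' : IsGau (tr (g : (Fin n → ℂ) ≃ₗ[ℂ] (Fin n → ℂ)) l ⬝ᵥ v) := hl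
    rwa [tr_dot] at hl'
  · rw [Nat.cast_mul]
    refine FC_avg fun g => FC_pull (fun w hw => hG g g.2 w hw)
      (h2 ((g : (Fin n → ℂ) ≃ₗ[ℂ] (Fin n → ℂ)) u) fun h =>
        hu ((g : (Fin n → ℂ) ≃ₗ[ℂ] (Fin n → ℂ)).map_eq_zero_iff.1 h)) fun l hl => ?_
    have hl' : tr (g : (Fin n → ℂ) ≃ₗ[ℂ] (Fin n → ℂ)) l ⬝ᵥ u = 0 := hl
    rwa [tr_dot] at hl'

/-- The average of the extended form gives an effective line bundle. -/
theorem dec_avg_zero (hG : PresLat G) (hr : OkR ρ) (D : Dat h) (b : ℕ)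
    (hb : (∀ v, v ≠ 0 → 0 < (h v v).re) ∧ (∀ v, Lat v → v ≠ 0 → (b : ℝ) ≤ (h v v).re) ∨
      b = 0 ∧ ∀ v, 0 ≤ (h v v).re) :
    Dec (avg G (exH ρ b h)) (Fintype.card G * b) {0} := by
  refine dec_of_FC ?_
  rw [Nat.cast_mul]
  refine FC_avg fun g => FC_pull (fun w hw => hG g g.2 w hw) (FC_sec hr D b hb) fun l hl => ?_
  have hl' : tr (g : (Fin n → ℂ) ≃ₗ[ℂ] (Fin n → ℂ)) l = 0 := hl
  show l = 0
  have h1 : ∀ u, l ⬝ᵥ u = 0 := fun u => by
    have h2 := tr_dot (g : (Fin n → ℂ) ≃ₗ[ℂ] (Fin n → ℂ)) l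
      ((g : (Fin n → ℂ) ≃ₗ[ℂ] (Fin n → ℂ)).symm u)
    rw [hl', zero_dotProduct, LinearEquiv.apply_symm_apply] at h2
    exact h2.symm
  exact dotProduct_eq_zero _ h1

end avg

end Pool.Agent.H899.RG
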