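import Pool.Agent.H899.RG.Cov
import Pool.Agent.H899.ER.Fin

/-!
# Fibrations given by invariant subspaces
-/

set_option autoImplicit false

namespace Pool.Agent.H899.RG

open Pool.Agent.H899.ER (NRs NR form coef integral semiample effective span nefCone effCone nefEff
  IsPullback IsOver IsAutGroup HasDomain incl Stable)

open Pool.Agent.T6.H34.GK (Lat IsExt ext)
open Pool.Agent.T6.H34.GE (PresLat)

theorem incl_isExt (p r : ℕ) : IsExt (Fin.natAdd p) (incl p r) := by
  classical
  intro u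
  funext i
  change (Fin.append (0 : Fin p → ℂ) u) i = ext (Fin.natAdd p) u i
  unfold ext
  refine Fin.addCases (fun a => ?_) (fun b => ?_) i
  · rw [Fin.append_left]
    refine (Finset.sum_eq_zero fun c _ => if_neg ?_).symm
    intro h
    have := congrArg Fin.val h
    simp at this
    omega
  · rw [Fin.append_right, Finset.sum_eq_single b]
    · rw [if_pos rfl]
    · intro c _ hc
      exact if_neg fun h => hc (Fin.natAdd_injective _ _ h)
    · intro h
      exact absurd (Finset.mem_univ _) h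

variable {n r : ℕ} {G : Subgroup ((Fin n → ℂ) ≃ₗ[ℂ] (Fin n → ℂ))}
  {j : (Fin r → ℂ) →ₗ[ℂ] (Fin n → ℂ)} {ρ : Fin r → Fin n}

/-- The group of the restrictions of the elements of `G`. -/
def rg (G : Subgroup ((Fin n → ℂ) ≃ₗ[ℂ] (Fin n → ℂ))) (j : (Fin r → ℂ) →ₗ[ℂ] (Fin n → ℂ)) :
    Subgroup ((Fin r → ℂ) ≃ₗ[ℂ] (Fin r → ℂ)) where
  carrier := {a | ∃ g ∈ G, ∀ u, g (j u) = j (a u)}
  one_mem' := ⟨1, G.one_mem, fun _ => rfl⟩
  mul_mem' := by
    rintro a b ⟨g, hg, h1⟩ ⟨g', hg', h1'⟩
    refine ⟨g * g', G.mul_mem hg hg', fun u => ?_⟩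
    change g (g' (j u)) = j (a (b u))
    rw [h1', h1]
  inv_mem' := by
    rintro a ⟨g, hg, h1⟩
    refine ⟨g⁻¹, G.inv_mem hg, fun u => ?_⟩
    apply g.injective
    have h2 : ∀ w, g (g⁻¹ w) = w := fun w => g.apply_symm_apply w
    have h3 : a (a⁻¹ u) = u := a.apply_symm_apply u
    rw [h2, h1, h3]

theorem restr (hS : Stable G j) (hj : Function.Injective j) : Restr G j (rg G j) := by
  refine ⟨fun g hg => ?_, fun a ha => ha⟩
  choose f hf using hS g hg
  choose f' hf' using hS g⁻¹ (G.inv_mem hg)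
  have h1 : ∀ u, f' (f u) = u := fun u => by
    apply hj
    rw [← hf', ← hf]
    exact g.symm_apply_apply _
  have h2 : ∀ u, f (f' u) = u := fun u => by
    apply hj
    rw [← hf, ← hf']
    exact g.apply_symm_apply _
  let a : (Fin r → ℂ) ≃ₗ[ℂ] (Fin r → ℂ) :=
    { toFun := f
      map_add' := fun u w => by
        apply hj
        rw [← hf, map_add, map_add, hf, hf, map_add]
      map_smul' := fun c u => by
        apply hj
        rw [← hf, map_smul, map_smul, hf, RingHom.id_apply, map_smul]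
      invFun := f'
      left_inv := h1
      right_inv := h2 }
  exact ⟨a, ⟨g, hg, hf⟩, hf⟩

theorem rg_finite [Finite G] (hj : Function.Injective j) : Finite (rg G j) := by
  classical
  have h1 : ∀ a : rg G j, ∃ g : G, ∀ u,
      (g : (Fin n → ℂ) ≃ₗ[ℂ] (Fin n → ℂ)) (j u) = j ((a : (Fin r → ℂ) ≃ₗ[ℂ] (Fin r → ℂ)) u) :=
    fun a => by
      obtain ⟨g, hg, h⟩ := a.2
      exact ⟨⟨g, hg⟩, h⟩
  choose f hf using h1
  refine Finite.of_injective f fun a b hab => ?_
  apply Subtype.ext
  ext1 u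
  apply hj
  rw [← hf, ← hf, hab]

theorem rg_pres (hG : PresLat G) (hj : IsExt ρ j) (hρ : Function.Injective ρ) :
    PresLat (rg G j) := by
  rintro a ⟨g, hg, h1⟩ v hv
  have h2 : Lat (g (j v)) := hG g hg _ (hj.lat hv)
  rw [h1] at h2
  intro i
  have h3 := h2 (ρ i)
  have h4 := congrFun (hj.comp hρ (a v)) i
  change j (a v) (ρ i) = a v i at h4
  rwa [h4] at h3

end Pool.Agent.H899.RG
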