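import Pool.Agent.H899.RG.Cls0

/-!
# The data for the fundamental domain
-/

set_option autoImplicit false
set_option maxHeartbeats 400000

namespace Pool.Agent.H899.RG

open Pool.Agent.H899.ER (NRs NR form coef integral semiample effective span nefCone effCone nefEff
  IsPullback IsOver IsAutGroup HasDomain)

open Filter Topology
open Pool.Agent.W594.SYZ2 (IsHermitian)
open Pool.Agent.R895 (BlBundle act N1 N1s IsClass)
open Pool.Agent.T6.H34.GK (Lat kum IsGau std frm kap Nf Dat IsExt exH exH_herm exH_int co mem_co frm_add frm_smul frm_sub frm_zero form_frm N1_ext' kap_ne re_natMul frm_herm std_dat std_herm std_int std_pos std_nonneg one_le_std le_std xi)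
open Pool.Agent.Y167 (AffGrp cone CData Pol Cp cone_ind cone_add cone_smul cone_sum cone_le
  mem_cone_self mem_cone_of_sum zero_mem_cone cone_mono)
open Pool.Agent.T6.H34.EK (QBundle NS NSs IsCls)
open Pool.Agent.T6.H34.GE (PresLat grp res c0 c0_pos c0_real avg avg_dat avg_inv avg_re avg_of_inv Inv std_le_avg re_twice inv_comb)

variable {n r : ℕ} {G : Subgroup ((Fin n → ℂ) ≃ₗ[ℂ] (Fin n → ℂ))} {hG : PresLat G}
  {j : (Fin r → ℂ) →ₗ[ℂ] (Fin n → ℂ)} {ρ : Fin r → Fin n}
  {K : Subgroup ((Fin r → ℂ) ≃ₗ[ℂ] (Fin r → ℂ))} {h : (Fin r → ℂ) → (Fin r → ℂ) → ℂ}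
  [Fintype G] [Fintype K]

theorem exists_y₀ [Nonempty (Fin n)] (hG : PresLat G) (hK : PresLat K) (hR : Restr G j K)
    (hj : IsExt ρ j) (hρ : Function.Injective ρ) :
    ∃ y : NR (grp G hG) j, y ∈ integral (grp G hG) j ∧
      (∀ u w, frm (up y) u w = cr G * (((2 : ℕ) : ℂ) * avg K std u w)) ∧ coef y = cr G := by
  obtain ⟨y, h1, h2, h3⟩ := exists_cls hG hR hj hρ ((avg_dat hK std_dat).natMul 2)
    (fun g hg u w => by rw [avg_inv std g hg]) 1
  exact ⟨y, h1, h2, by rw [h3]; simp⟩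

/-- The trace of the form of a class. -/
noncomputable def xiR (hG : PresLat G) (j : (Fin r → ℂ) →ₗ[ℂ] (Fin n → ℂ)) :
    NR (grp G hG) j →ₗ[ℝ] ℝ := (xi 1 j) ∘ₗ upL

omit [Fintype K] in
theorem re_cr (z : ℂ) : ((cr G : ℂ) * z).re = cr G * z.re := re_natMul _ _

theorem y_int {y₀ : NR (grp G hG) j}
    (hy1 : ∀ u w, frm (up y₀) u w = cr G * (((2 : ℕ) : ℂ) * avg K std u w)) (hy2 : coef y₀ = cr G)
    (x : NR (grp G hG) j) : ∃ C : ℝ, 0 < C ∧ C • y₀ - x ∈ NfR hG j := by
  obtain ⟨C, hC, h1⟩ := le_std (frm_herm (up x))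
  have hre : ∀ v : Fin r → ℂ, (frm (up y₀) v v).re = cr G * (2 * (avg K std v v).re) := by
    intro v
    rw [hy1, re_twice]
  have hc1 := one_le_cr (G := G)
  have hkey : ∀ v : Fin r → ℂ, 2 * (std v v).re ≤ (frm (up y₀) v v).re := by
    intro v
    rw [hre]
    have h2 := std_le_avg (G := K) v
    have h3 := std_nonneg v
    nlinarith
  have hsub : ∀ v : Fin r → ℂ, (frm (up ((C + |coef x| + 1) • y₀ - x)) v v).re =
      (C + |coef x| + 1) * (frm (up y₀) v v).re - (frm (up x) v v).re := by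
    intro v
    rw [up_sub, up_smul, frm_sub, frm_smul, Complex.sub_re, Complex.re_ofReal_mul]
  have hcoef : coef ((C + |coef x| + 1) • y₀ - x) = (C + |coef x| + 1) * cr G - coef x := by
    rw [coef_sub, coef_smul, hy2]
  refine ⟨C + |coef x| + 1, by positivity, fun v => ?_, ?_, fun v hv hv0 => ?_⟩
  · rw [hsub]
    have h2 := std_nonneg v
    have h3 := h1 v
    have h4 := mul_nonneg (abs_nonneg (coef x)) h2
    have h5 := hkey v
    have h6 : (C + |coef x| + 1) * (2 * (std v v).re) ≤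
        (C + |coef x| + 1) * (frm (up y₀) v v).re :=
      mul_le_mul_of_nonneg_left h5 (by positivity)
    nlinarith
  · rw [coef_up, hcoef]
    have := le_abs_self (coef x)
    have := abs_nonneg (coef x)
    nlinarith
  · rw [hsub, coef_up, hcoef]
    have h2 := one_le_std hv hv0
    have h3 := h1 v
    have h5 := neg_abs_le (coef x)
    have h6 := abs_nonneg (coef x)
    have h7 := std_le_avg (G := K) v
    rw [hre]
    have h8 : (C + |coef x| + 1) * (cr G * (std v v).re + cr G * 1) ≤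
        (C + |coef x| + 1) * (cr G * (2 * (avg K std v v).re)) := by
      refine mul_le_mul_of_nonneg_left ?_ (by positivity)
      nlinarith
    have h9 : (C + |coef x| + 1) * (1 * (std v v).re) ≤
        (C + |coef x| + 1) * (cr G * (std v v).re) := by
      refine mul_le_mul_of_nonneg_left ?_ (by positivity)
      exact mul_le_mul_of_nonneg_right hc1 (by linarith)
    have h10 : |coef x| * 1 ≤ |coef x| * (std v v).re := mul_le_mul_of_nonneg_left h2 h6
    nlinarith

theorem y_N {y₀ : NR (grp G hG) j}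
    (hy1 : ∀ u w, frm (up y₀) u w = cr G * (((2 : ℕ) : ℂ) * avg K std u w))
    (hy2 : coef y₀ = cr G) : y₀ ∈ NfR hG j := by
  have hre : ∀ v : Fin r → ℂ, (frm (up y₀) v v).re = cr G * (2 * (avg K std v v).re) := by
    intro v
    rw [hy1, re_twice]
  have hc1 := cr_real (G := G)
  refine ⟨fun v => ?_, by rw [coef_up, hy2]; exact hc1.le, fun v hv hv0 => ?_⟩
  · rw [hre]
    have h1 := std_nonneg v
    have h2 := std_le_avg (G := K) v
    have h3 : 0 ≤ (avg K std v v).re := h1.trans h2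
    positivity
  · rw [hre, coef_up, hy2]
    have h1 := one_le_std hv hv0
    have h2 := std_le_avg (G := K) v
    nlinarith

/-- The data for the fundamental domain. -/
theorem exists_cdata (hj : IsExt ρ j) (hρ : Function.Injective ρ) (hn : 0 < n) (hr : 0 < r)
    {y₀ : NR (grp G hG) j} (hy0 : y₀ ∈ integral (grp G hG) j)
    (hy1 : ∀ u w, frm (up y₀) u w = cr G * (((2 : ℕ) : ℂ) * avg K std u w))
    (hy2 : coef y₀ = cr G) :
    ∃ Y : Finset (NR (grp G hG) j), CData (LR hG j) (NfR hG j) (xiR hG j) y₀ Y := by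
  classical
  have : Nonempty (Fin n) := ⟨⟨0, hn⟩⟩
  have hfin : FiniteDimensional ℝ (NR (grp G hG) j) := finite_NR
  obtain ⟨y₁, k0, k1, k2⟩ := Pool.Agent.T6.H34.GK.exists_y₀ (ρ := ρ) (j := j) 1 hj hρ
  obtain ⟨Y₁, D₁⟩ := Pool.Agent.T6.H34.GK.exists_cdata hj hr k0 k1 k2
  have hyNf : y₀ ∈ NfR hG j := y_N hy1 hy2
  have hyL : y₀ ∈ LR hG j := AddSubgroup.subset_closure hy0
  obtain ⟨t, ht, htspan, htli⟩ := exists_linearIndependent ℝ (integral (grp G hG) j)
  have htfin : t.Finite := htli.setFinite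
  have hchoose : ∀ x : NR (grp G hG) j, ∃ n : ℕ, (n : ℝ) • y₀ - x ∈ NfR hG j := by
    intro x
    obtain ⟨C, hC, h1⟩ := y_int hy1 hy2 x
    refine ⟨⌈C⌉₊, ?_⟩
    have h2 : ((⌈C⌉₊ : ℝ) - C) • y₀ ∈ NfR hG j := NfR_smul (sub_nonneg.2 (Nat.le_ceil C)) hyNf
    have h3 := NfR_add h2 h1
    have h4 : ((⌈C⌉₊ : ℝ) - C) • y₀ + (C • y₀ - x) = (⌈C⌉₊ : ℝ) • y₀ - x := by
      module
    rwa [h4] at h3
  choose nf hnf using hchoose
  refine ⟨insert y₀ (htfin.toFinset.image fun x => (nf x : ℝ) • y₀ - x),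
    { add := fun x hx y hy => NfR_add hx hy
      smul := fun t ht x hx => NfR_smul ht hx
      xi_int := fun x hx => D₁.xi_int (up x) (up_LR hx)
      xi_pos := fun x hx hx0 => D₁.xi_pos (up x) hx fun h0 => hx0 (up_inj (h0.trans up_zero.symm))
      fin := fun C => ?_
      y_L := hyL
      y_N := hyNf
      y_int := y_int hy1 hy2
      dom := fun η => ?_
      sep := fun x hx => ?_
      Y_mem := fun y hy => ?_
      Y_span := fun φ hφ => ?_ }⟩
  · refine Set.Finite.subset ((D₁.fin C).preimage up_inj.injOn) fun x hx => ?_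
    exact ⟨up_LR hx.1, hx.2.1, hx.2.2⟩
  · obtain ⟨g, hg⟩ := LinearMap.exists_leftInverse_of_injective (upL (G := G) (hG := hG) (j := j))
      (LinearMap.ker_eq_bot.2 up_inj)
    obtain ⟨C, hC⟩ := D₁.dom (η ∘ₗ g)
    refine ⟨C, fun x hx => ?_⟩
    have h1 := hC (up x) hx
    have h2 : (η ∘ₗ g) (up x) = η x := by
      change η (g (upL x)) = η x
      rw [show g (upL x) = x from LinearMap.congr_fun hg x]
    rw [h2] at h1
    exact h1
  · obtain ⟨η, h1, h2⟩ := D₁.sep (up x) fun h0 => hx (up_inj (h0.trans up_zero.symm))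
    exact ⟨η ∘ₗ upL, fun y hy => h1 (up y) (up_LR hy), h2⟩
  · rcases Finset.mem_insert.1 hy with rfl | h
    · exact ⟨hyL, hyNf⟩
    · obtain ⟨x, hx, rfl⟩ := Finset.mem_image.1 h
      rw [htfin.mem_toFinset] at hx
      refine ⟨AddSubgroup.sub_mem _ ?_ (AddSubgroup.subset_closure (ht hx)), hnf x⟩
      rw [Nat.cast_smul_eq_nsmul]
      exact AddSubgroup.nsmul_mem _ hyL _
  · have h0 : φ y₀ = 0 := hφ _ (Finset.mem_insert_self _ _)
    have h1 : ∀ x ∈ t, φ x = 0 := by
      intro x hx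
      have h2 := hφ ((nf x : ℝ) • y₀ - x)
        (Finset.mem_insert_of_mem (Finset.mem_image_of_mem _ (htfin.mem_toFinset.2 hx)))
      rw [map_sub, map_smul φ (nf x : ℝ), h0, smul_zero, zero_sub, neg_eq_zero] at h2
      exact h2
    have h2 : (⊤ : Submodule ℝ (NR (grp G hG) j)) ≤ LinearMap.ker φ := by
      rw [← span_integral, ← htspan, Submodule.span_le]
      intro x hx
      exact h1 x hx
    exact LinearMap.ker_eq_top.1 (top_le_iff.1 h2)

end Pool.Agent.H899.RG
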