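import Pool.Agent.H899.RG.Core
import Pool.Agent.H899.ER.Fin

/-!
# The relative cone conjecture, Gaussian integers
-/

set_option autoImplicit false

namespace Pool.Agent.H899.RG

open Pool.Agent.H899.ER (NR nefCone coef form HasDomain IsAutGroup Stable incl)
open Pool.Agent.T6.H34.GK (Lat kap)
open Pool.Agent.T6.H34.GE (PresLat grp)
open Pool.Agent.Y167.CC (LinGrp)

theorem last (p r : ℕ) (hp : 1 ≤ p) (hr : 1 ≤ r) (h3 : r ≤ 3)
    (G : Subgroup ((Fin (p + r) → ℂ) ≃ₗ[ℂ] (Fin (p + r) → ℂ))) (hfin : Finite G)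
    (hG : PresLat G) (hS : Stable G (incl p r)) :
    (∀ x : NR (grp G hG) (incl p r), x ∈ nefCone (grp G hG) (incl p r) ↔
      0 ≤ coef x ∧ ∀ v, Lat v → v ≠ 0 → coef x ≤ (form x v v).re) ∧
    ∀ 𝒢 : LinGrp (NR (grp G hG) (incl p r)), IsAutGroup 𝒢 → HasDomain 𝒢 := by
  have hne : Nonempty (Fin (p + r)) := ⟨⟨0, by omega⟩⟩
  have hρ : Function.Injective (Fin.natAdd p : Fin r → Fin (p + r)) := Fin.natAdd_injective r p
  have hj : Pool.Agent.T6.H34.GK.IsExt (Fin.natAdd p) (incl p r) := incl_isExt p r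
  have hR := restr hS (hj.inj hρ)
  have hK := rg_pres (G := G) hG hj hρ
  have hfin' : Finite (rg G (incl p r)) := rg_finite (hj.inj hρ)
  have hft : Fintype G := Fintype.ofFinite G
  have hft' : Fintype (rg G (incl p r)) := Fintype.ofFinite _
  have hok : OkR (Fin.natAdd p : Fin r → Fin (p + r)) := by
    refine okR hr h3 ⟨Fin.castAdd r ⟨0, hp⟩, ?_⟩
    rw [Pool.Agent.T6.H34.GK.mem_co]
    intro a h
    have := congrArg Fin.val h
    simp at this
    omega
  refine ⟨fun x => ?_, fun 𝒢 h𝒢 => core hok (by omega) hG hK hR hj hρ 𝒢 h𝒢⟩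
  have hk : (0 : ℝ) < kap := Pool.Agent.T6.H34.GK.kap_pos
  have hre : ∀ v : Fin r → ℂ, (Pool.Agent.T6.H34.GK.frm (up x) v v).re = (form x v v).re := by
    intro v
    have h1 : (Pool.Agent.T6.H34.GK.frm (up x) v v).re = (form x v v).re / kap :=
      Pool.Agent.T6.H34.GK.re_kap_div _
    rw [h1]
    exact div_one _
  rw [nefCone_eq hok hK hR hj hρ]
  constructor
  · rintro ⟨-, h2, h3⟩
    refine ⟨h2, fun v hv hv0 => ?_⟩
    have h4 := h3 v hv hv0
    rwa [hre, coef_up] at h4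
  · rintro ⟨h2, h3⟩
    have h4 : ∀ v, Lat v → v ≠ 0 → coef x ≤ (Pool.Agent.T6.H34.GK.frm (up x) v v).re := by
      intro v hv hv0
      rw [hre]
      exact h3 v hv hv0
    refine ⟨Pool.Agent.T6.H34.GK.frm_psd (up x) fun v hv => ?_, h2, h4⟩
    by_cases hv0 : v = 0
    · rw [hre, hv0]
      have h5 : form x (0 : Fin r → ℂ) 0 = 0 :=
        Pool.Agent.W594.SYZ2.TQ.h_zero_left (Pool.Agent.T6.H34.GK.form_herm (up x)) 0
      rw [h5, Complex.zero_re]
    · exact h2.trans (h4 v hv hv0)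

end Pool.Agent.H899.RG
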