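import Pool.Agent.H899.RG.Red

/-!
# Automorphisms over the base
-/

set_option autoImplicit false
set_option maxHeartbeats 400000

namespace Pool.Agent.H899.RG

open Pool.Agent.H899.ER (NRs NR form coef integral semiample effective span nefCone effCone nefEff
  IsPullback IsOver IsAutGroup HasDomain)

open Filter Topology
open Pool.Agent.W594.SYZ2 (IsHermitian)
open Pool.Agent.R895 (BlBundle act N1 N1s IsClass Normalizes)
open Pool.Agent.T6.H34.GK (Lat kum IsGau std frm kap Nf Dat IsExt frm_add frm_smul frm_sub frm_zero form_frm N1_ext')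
open Pool.Agent.Y167 (AffGrp cone)
open Pool.Agent.T6.H34.EK (QBundle IsCls)
open Pool.Agent.T6.H34.GE (PresLat grp pullQ isCls_pullQ normalizes_of normalizes_symm)

variable {n r : ℕ} {G : Subgroup ((Fin n → ℂ) ≃ₗ[ℂ] (Fin n → ℂ))} {hG : PresLat G}
  {j : (Fin r → ℂ) →ₗ[ℂ] (Fin n → ℂ)} {ρ : Fin r → Fin n}
  {K : Subgroup ((Fin r → ℂ) ≃ₗ[ℂ] (Fin r → ℂ))}

section dn

/-- The restriction of an element of `G`. -/
noncomputable def dn (hR : Restr G j K) (g : G) : (Fin r → ℂ) ≃ₗ[ℂ] (Fin r → ℂ) :=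
  (hR.down g g.2).choose

theorem dn_mem (hR : Restr G j K) (g : G) : dn hR g ∈ K := (hR.down g g.2).choose_spec.1

theorem dn_j (hR : Restr G j K) (g : G) (u : Fin r → ℂ) :
    (g : (Fin n → ℂ) ≃ₗ[ℂ] (Fin n → ℂ)) (j u) = j (dn hR g u) := (hR.down g g.2).choose_spec.2 u

theorem dn_mul (hR : Restr G j K) (hj : Function.Injective j) (g g' : G) (u : Fin r → ℂ) :
    dn hR (g * g') u = dn hR g (dn hR g' u) := by
  apply hj
  rw [← dn_j, ← dn_j, ← dn_j]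
  rfl

variable [Fintype G]

/-- The restriction of vectors to the coordinates in the image of `ρ`. -/
def pr (ρ : Fin r → Fin n) : (Fin n → ℂ) →ₗ[ℂ] (Fin r → ℂ) where
  toFun v := v ∘ ρ
  map_add' _ _ := rfl
  map_smul' _ _ := rfl

/-- The equivariant projection, multiplied by the order of `G`. -/
noncomputable def pj (ρ : Fin r → Fin n) (hR : Restr G j K) : (Fin n → ℂ) →ₗ[ℂ] (Fin r → ℂ) :=
  ∑ g : G, ((dn hR g).symm : (Fin r → ℂ) →ₗ[ℂ] (Fin r → ℂ)) ∘ₗ (pr ρ) ∘ₗ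
    ((g : (Fin n → ℂ) ≃ₗ[ℂ] (Fin n → ℂ)) : (Fin n → ℂ) →ₗ[ℂ] (Fin n → ℂ))

theorem pj_apply (hR : Restr G j K) (v : Fin n → ℂ) : pj ρ hR v = ∑ g : G,
    (dn hR g).symm (pr ρ ((g : (Fin n → ℂ) ≃ₗ[ℂ] (Fin n → ℂ)) v)) := by
  unfold pj
  rw [LinearMap.sum_apply]
  rfl

theorem pj_j (hR : Restr G j K) (hj : IsExt ρ j) (hρ : Function.Injective ρ) (u : Fin r → ℂ) :
    pj ρ hR (j u) = (Fintype.card G : ℂ) • u := by
  rw [pj_apply]
  have h1 : ∀ g : G, (dn hR g).symm (pr ρ ((g : (Fin n → ℂ) ≃ₗ[ℂ] (Fin n → ℂ)) (j u))) = u := by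
    intro g
    rw [dn_j hR]
    have h2 : pr ρ (j (dn hR g u)) = dn hR g u := hj.comp hρ _
    rw [h2, LinearEquiv.symm_apply_apply]
  rw [Finset.sum_congr rfl fun g _ => h1 g, Finset.sum_const, Finset.card_univ,
    ← Nat.cast_smul_eq_nsmul ℂ]

theorem pj_g (hR : Restr G j K) (hj : Function.Injective j) (g₀ : G) (v : Fin n → ℂ) :
    pj ρ hR ((g₀ : (Fin n → ℂ) ≃ₗ[ℂ] (Fin n → ℂ)) v) = dn hR g₀ (pj ρ hR v) := by
  rw [pj_apply, pj_apply, map_sum]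
  refine Fintype.sum_equiv (Equiv.mulRight g₀) _ _ fun g => ?_
  change _ = dn hR g₀ ((dn hR (g * g₀)).symm (pr ρ (((g * g₀ : G) :
    (Fin n → ℂ) ≃ₗ[ℂ] (Fin n → ℂ)) v)))
  have h1 : ((g * g₀ : G) : (Fin n → ℂ) ≃ₗ[ℂ] (Fin n → ℂ)) v =
    (g : (Fin n → ℂ) ≃ₗ[ℂ] (Fin n → ℂ)) ((g₀ : (Fin n → ℂ) ≃ₗ[ℂ] (Fin n → ℂ)) v) := rfl
  rw [h1]
  set w := pr ρ ((g : (Fin n → ℂ) ≃ₗ[ℂ] (Fin n → ℂ))
    ((g₀ : (Fin n → ℂ) ≃ₗ[ℂ] (Fin n → ℂ)) v)) with hw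
  apply (dn hR g).injective
  rw [LinearEquiv.apply_symm_apply, ← dn_mul hR hj, LinearEquiv.apply_symm_apply]

theorem pj_lat (hG : PresLat G) (hK : PresLat K) (hR : Restr G j K) {v : Fin n → ℂ} (hv : Lat v) :
    Lat (pj ρ hR v) := by
  rw [pj_apply]
  refine lat_sum _ _ fun g _ => ?_
  have h1 : Lat ((g : (Fin n → ℂ) ≃ₗ[ℂ] (Fin n → ℂ)) v) := hG g g.2 v hv
  have h2 : Lat (pr ρ ((g : (Fin n → ℂ) ≃ₗ[ℂ] (Fin n → ℂ)) v)) := fun a => h1 (ρ a)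
  exact hK _ (K.inv_mem (dn_mem hR g)) _ h2

/-- The lift of an automorphism of `ℂ^r`. -/
noncomputable def lf (ρ : Fin r → Fin n) (hR : Restr G j K)
    (u : (Fin r → ℂ) →ₗ[ℂ] (Fin r → ℂ)) : (Fin n → ℂ) →ₗ[ℂ] (Fin n → ℂ) :=
  LinearMap.id + ((Fintype.card G : ℂ)⁻¹) • (j ∘ₗ (u - LinearMap.id) ∘ₗ pj ρ hR)

theorem lf_apply (hR : Restr G j K) (u : (Fin r → ℂ) →ₗ[ℂ] (Fin r → ℂ)) (v : Fin n → ℂ) :
    lf ρ hR u v = v + (Fintype.card G : ℂ)⁻¹ • j (u (pj ρ hR v) - pj ρ hR v) := rfl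

theorem card_ne : (Fintype.card G : ℂ) ≠ 0 := by exact_mod_cast Fintype.card_ne_zero (α := G)

theorem pj_lf (hR : Restr G j K) (hj : IsExt ρ j) (hρ : Function.Injective ρ)
    (u : (Fin r → ℂ) →ₗ[ℂ] (Fin r → ℂ)) (v : Fin n → ℂ) :
    pj ρ hR (lf ρ hR u v) = u (pj ρ hR v) := by
  rw [lf_apply, map_add, map_smul, pj_j hR hj hρ, smul_smul, inv_mul_cancel₀ card_ne, one_smul,
    add_sub_cancel]

theorem lf_lf (hR : Restr G j K) (hj : IsExt ρ j) (hρ : Function.Injective ρ)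
    (u t : (Fin r → ℂ) →ₗ[ℂ] (Fin r → ℂ)) (v : Fin n → ℂ) :
    lf ρ hR u (lf ρ hR t v) = lf ρ hR (u ∘ₗ t) v := by
  rw [lf_apply hR u, pj_lf hR hj hρ, lf_apply, lf_apply, add_assoc, ← smul_add, ← map_add,
    LinearMap.comp_apply]
  congr 3
  abel

theorem lf_id (hR : Restr G j K) (v : Fin n → ℂ) : lf ρ hR LinearMap.id v = v := by
  rw [lf_apply, LinearMap.id_apply, sub_self, map_zero, smul_zero, add_zero]

/-- The lift of an automorphism of `ℂ^r`. -/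
noncomputable def le (hR : Restr G j K) (hj : IsExt ρ j) (hρ : Function.Injective ρ)
    (u : (Fin r → ℂ) ≃ₗ[ℂ] (Fin r → ℂ)) : (Fin n → ℂ) ≃ₗ[ℂ] (Fin n → ℂ) :=
  LinearEquiv.ofLinearMap (lf ρ hR (u : (Fin r → ℂ) →ₗ[ℂ] (Fin r → ℂ)))
    (lf ρ hR (u.symm : (Fin r → ℂ) →ₗ[ℂ] (Fin r → ℂ)))
    (LinearMap.ext fun v => by
      rw [LinearMap.comp_apply, lf_lf hR hj hρ, ← LinearEquiv.coe_trans, LinearEquiv.symm_trans_self]
      exact lf_id hR v)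
    (LinearMap.ext fun v => by
      rw [LinearMap.comp_apply, lf_lf hR hj hρ, ← LinearEquiv.coe_trans, LinearEquiv.self_trans_symm]
      exact lf_id hR v)

theorem le_apply (hR : Restr G j K) (hj : IsExt ρ j) (hρ : Function.Injective ρ)
    (u : (Fin r → ℂ) ≃ₗ[ℂ] (Fin r → ℂ)) (v : Fin n → ℂ) : le hR hj hρ u v =
      v + (Fintype.card G : ℂ)⁻¹ • j (u (pj ρ hR v) - pj ρ hR v) := rfl

theorem le_symm (hR : Restr G j K) (hj : IsExt ρ j) (hρ : Function.Injective ρ)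
    (u : (Fin r → ℂ) ≃ₗ[ℂ] (Fin r → ℂ)) : (le hR hj hρ u).symm = le hR hj hρ u.symm := by
  ext v
  rfl

theorem le_j (hR : Restr G j K) (hj : IsExt ρ j) (hρ : Function.Injective ρ)
    (u : (Fin r → ℂ) ≃ₗ[ℂ] (Fin r → ℂ)) (v : Fin r → ℂ) : le hR hj hρ u (j v) = j (u v) := by
  rw [le_apply, pj_j hR hj hρ, map_smul, ← smul_sub, map_smul, smul_smul, inv_mul_cancel₀ card_ne,
    one_smul, map_sub, add_sub_cancel]

theorem le_over (hR : Restr G j K) (hj : IsExt ρ j) (hρ : Function.Injective ρ)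
    (u : (Fin r → ℂ) ≃ₗ[ℂ] (Fin r → ℂ)) : IsOver j (le hR hj hρ u) := fun v =>
  ⟨(Fintype.card G : ℂ)⁻¹ • (u (pj ρ hR v) - pj ρ hR v), by rw [le_apply, map_smul]⟩

theorem le_comm (hR : Restr G j K) (hj : IsExt ρ j) (hρ : Function.Injective ρ)
    {u : (Fin r → ℂ) ≃ₗ[ℂ] (Fin r → ℂ)} (hu : Cent K u) {g : (Fin n → ℂ) ≃ₗ[ℂ] (Fin n → ℂ)}
    (hg : g ∈ G) (v : Fin n → ℂ) : le hR hj hρ u (g v) = g (le hR hj hρ u v) := by
  have h1 := pj_g (ρ := ρ) hR (hj.inj hρ) ⟨g, hg⟩ v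
  have h2 := dn_j hR ⟨g, hg⟩
  have h1' : pj ρ hR (g v) = dn hR ⟨g, hg⟩ (pj ρ hR v) := h1
  have h2' : ∀ u, g (j u) = j (dn hR ⟨g, hg⟩ u) := h2
  rw [le_apply, le_apply, h1', hu.comm _ (dn_mem hR _), ← map_sub (dn hR ⟨g, hg⟩), ← h2', map_add,
    map_smul]

theorem le_lat (hG : PresLat G) (hK : PresLat K) (hR : Restr G j K) (hj : IsExt ρ j)
    (hρ : Function.Injective ρ) {u : (Fin r → ℂ) ≃ₗ[ℂ] (Fin r → ℂ)}
    (hu : Cong (Fintype.card G) u) {v : Fin n → ℂ} (hv : Lat v) : Lat (le hR hj hρ u v) := by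
  obtain ⟨w, hw, h1⟩ := hu _ (pj_lat (ρ := ρ) hG hK hR hv)
  rw [le_apply, h1, add_sub_cancel_left, map_smul, smul_smul, inv_mul_cancel₀ card_ne, one_smul]
  exact fun i => (hv i).add (hj.lat hw i)

theorem le_norm (hG : PresLat G) (hK : PresLat K) (hR : Restr G j K) (hj : IsExt ρ j)
    (hρ : Function.Injective ρ) {u : (Fin r → ℂ) ≃ₗ[ℂ] (Fin r → ℂ)} (hc : Cent K u)
    (hu : Cong (Fintype.card G) u) : Normalizes (grp G hG) (le hR hj hρ u) := by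
  refine normalizes_of (fun v hv => le_lat hG hK hR hj hρ hu hv) (fun v hv => ?_)
    fun g hg v => le_comm hR hj hρ hc hg v
  rw [le_symm]
  exact le_lat hG hK hR hj hρ (hu.symm hc.lat') hv

end dn

section pull

theorem pb_mem {f : (Fin n → ℂ) ≃ₗ[ℂ] (Fin n → ℂ)} {u : (Fin r → ℂ) ≃ₗ[ℂ] (Fin r → ℂ)}
    (hf : Normalizes (grp G hG) f) (hu : ∀ v, f (j v) = j (u v))
    {x : ((Fin r → ℂ) → (Fin r → ℂ) → ℂ) × ℝ} (hx : x ∈ NRs (grp G hG) j) :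
    ((fun v w => x.1 (u v) (u w), x.2) : ((Fin r → ℂ) → (Fin r → ℂ) → ℂ) × ℝ) ∈
      NRs (grp G hG) j := by
  unfold NRs at hx
  induction hx using Submodule.span_induction with
  | mem x hx =>
    obtain ⟨L, H, h1, h2, h3⟩ := hx
    have h4 : IsCls L ((H, x.2) : ((Fin n → ℂ) → (Fin n → ℂ) → ℂ) × ℝ) := ⟨h1, h3⟩
    obtain ⟨k1, k2⟩ := isCls_pullQ hf h4
    refine Submodule.subset_span ⟨pullQ hf L, _, k1, fun v w => ?_, k2⟩
    dsimp only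
    rw [h2, hu, hu]
  | zero => exact Submodule.zero_mem _
  | add x y _ _ h1 h2 => exact Submodule.add_mem _ h1 h2
  | smul t x _ h1 => exact Submodule.smul_mem _ t h1

theorem pb_int {f : (Fin n → ℂ) ≃ₗ[ℂ] (Fin n → ℂ)} {u : (Fin r → ℂ) ≃ₗ[ℂ] (Fin r → ℂ)}
    (hf : Normalizes (grp G hG) f) (hu : ∀ v, f (j v) = j (u v))
    {x : ((Fin r → ℂ) → (Fin r → ℂ) → ℂ) × ℝ} (hx : ∃ L : QBundle (grp G hG),
      IsClass j L.toBlBundle x) : ∃ L : QBundle (grp G hG),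
      IsClass j L.toBlBundle (fun v w => x.1 (u v) (u w), x.2) := by
  obtain ⟨L, H, h1, h2, h3⟩ := hx
  have h4 : IsCls L ((H, x.2) : ((Fin n → ℂ) → (Fin n → ℂ) → ℂ) × ℝ) := ⟨h1, h3⟩
  obtain ⟨k1, k2⟩ := isCls_pullQ hf h4
  refine ⟨pullQ hf L, _, k1, fun v w => ?_, k2⟩
  dsimp only
  rw [h2, hu, hu]

/-- The action of an automorphism over the base on the classes. -/
theorem exists_pull (hji : Function.Injective j) {f : (Fin n → ℂ) ≃ₗ[ℂ] (Fin n → ℂ)}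
    {u : (Fin r → ℂ) ≃ₗ[ℂ] (Fin r → ℂ)}
    (hf : Normalizes (grp G hG) f) (hu : ∀ v, f (j v) = j (u v)) :
    ∃ g : NR (grp G hG) j ≃ₗ[ℝ] NR (grp G hG) j, IsPullback f g ∧
      (∀ x v w, form (g x) v w = form x (u v) (u w)) ∧ (∀ x, coef (g x) = coef x) := by
  have hf' := normalizes_symm hf
  have hu' : ∀ v, f.symm (j v) = j (u.symm v) := fun v => by
    rw [f.symm_apply_eq, hu, u.apply_symm_apply]
  let g : NR (grp G hG) j ≃ₗ[ℝ] NR (grp G hG) j :=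
    { toFun := fun x => ⟨(fun v w => x.1.1 (u v) (u w), x.1.2), pb_mem hf hu x.2⟩
      map_add' := fun x y => rfl
      map_smul' := fun c x => rfl
      invFun := fun x => ⟨(fun v w => x.1.1 (u.symm v) (u.symm w), x.1.2), pb_mem hf' hu' x.2⟩
      left_inv := fun x => by
        apply Subtype.ext
        refine Prod.ext ?_ rfl
        funext v w
        change x.1.1 (u (u.symm v)) (u (u.symm w)) = x.1.1 v w
        rw [u.apply_symm_apply, u.apply_symm_apply]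
      right_inv := fun x => by
        apply Subtype.ext
        refine Prod.ext ?_ rfl
        funext v w
        change x.1.1 (u.symm (u v)) (u.symm (u w)) = x.1.1 v w
        rw [u.symm_apply_apply, u.symm_apply_apply] }
  refine ⟨g, ⟨fun x v w v' w' hv hw => ?_, fun _ => rfl⟩, fun _ _ _ => rfl, fun _ => rfl⟩
  rw [hu] at hv hw
  rw [hji hv, hji hw]
  rfl

end pull

end Pool.Agent.H899.RG
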