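import Pool.Agent.H899.RG.Geo
import Pool.Agent.H899.RG.Cls

/-!
# The relative nef cone and the relative effective cone
-/

set_option autoImplicit false
set_option maxHeartbeats 400000

namespace Pool.Agent.H899.RG

open Pool.Agent.H899.ER (NRs NR form coef integral semiample effective span nefCone effCone nefEff
  IsPullback IsOver IsAutGroup HasDomain)

open Filter Topology
open Pool.Agent.W594.SYZ2 (IsHermitian)
open Pool.Agent.R895 (BlBundle act N1 N1s IsClass)
open Pool.Agent.T6.H34.GK (Lat kum IsGau std frm kap Nf Dat IsExt exH exH_herm exH_int co mem_co frm_add frm_smul frm_sub frm_zero form_frm N1_ext' kap_ne re_natMul frm_herm std_dat std_herm std_int std_pos std_nonneg one_le_std le_std xi exists_ker)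
open Pool.Agent.Y167 (AffGrp cone CData Pol Cp cone_ind cone_add cone_smul cone_sum cone_le
  mem_cone_self mem_cone_of_sum zero_mem_cone cone_mono)
open Pool.Agent.T6.H34.EK (QBundle NS NSs IsCls)
open Pool.Agent.T6.H34.GE (PresLat grp res c0 c0_pos c0_real avg avg_dat avg_inv avg_re avg_of_inv Inv std_le_avg re_twice)

theorem inv_comb' {r : ℕ} {K : Subgroup ((Fin r → ℂ) ≃ₗ[ℂ] (Fin r → ℂ))}
    {h h' : (Fin r → ℂ) → (Fin r → ℂ) → ℂ} (hi : Inv K h) (hi' : Inv K h') (a b : ℂ) :
    Inv K fun u w => a * h u w + b * h' u w := fun g hg u w => by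
  dsimp only
  rw [hi g hg, hi' g hg]

variable {n r : ℕ} {G : Subgroup ((Fin n → ℂ) ≃ₗ[ℂ] (Fin n → ℂ))} {hG : PresLat G}
  {j : (Fin r → ℂ) →ₗ[ℂ] (Fin n → ℂ)} {ρ : Fin r → Fin n}
  {K : Subgroup ((Fin r → ℂ) ≃ₗ[ℂ] (Fin r → ℂ))} {h : (Fin r → ℂ) → (Fin r → ℂ) → ℂ}
  [Fintype G] [Fintype K] [Nonempty (Fin n)]

/-- An integral class in the cone `NfR` is nef. -/
theorem nef_of_int (hn : OkR ρ) (hK : PresLat K) (hR : Restr G j K)
    (hj : IsExt ρ j) (hρ : Function.Injective ρ)
    {a : NR (grp G hG) j} (ha : a ∈ LR hG j) (haN : a ∈ NfR hG j) :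
    a ∈ nefCone (grp G hG) j := by
  obtain ⟨y₀, -, hy1, hy2⟩ := exists_y₀ hG hK hR hj hρ
  obtain ⟨D, k, hk⟩ := dat_of_LR hj ha
  obtain ⟨b, hb⟩ := coef_nat haN hk
  refine mem_closed (y := y₀) isClosed_closure fun k => subset_closure ?_
  set N : ℕ := k + 1 with hN
  have hKr : ((N : ℕ) : ℝ) = (k : ℝ) + 1 := by rw [hN]; push_cast; rfl
  have hK0 : (0 : ℝ) < N := by rw [hKr]; positivity
  have hcc := cr_real (G := G)
  have hc1 := one_le_cr (G := G)
  have D' : Dat fun u w => (N : ℂ) * frm (up a) u w + ((2 * cr G : ℕ) : ℂ) * avg K std u w :=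
    (D.natMul N).add ((avg_dat hK std_dat).natMul (2 * cr G))
  have hi' : Inv K fun u w => (N : ℂ) * frm (up a) u w + ((2 * cr G : ℕ) : ℂ) * avg K std u w :=
    inv_comb' (frm_inv hR a) (avg_inv std) _ _
  have hre : ∀ v, ((N : ℂ) * frm (up a) v v + ((2 * cr G : ℕ) : ℂ) * avg K std v v).re =
      N * (frm (up a) v v).re + 2 * cr G * (avg K std v v).re := by
    intro v
    rw [Complex.add_re, re_natMul, re_natMul]
    push_cast
    ring
  have hsa : (cr G : ℝ) • ((N : ℝ) • a + y₀) ∈ semiample (grp G hG) j := by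
    refine semiample_cls hn hR hj hρ D' hi' (N * b + cr G) (fun v hv => ?_) (fun v hv hv0 => ?_)
      (fun u w => ?_) ?_
    · rw [hre]
      have h1 := haN.1 v
      have h2 := std_pos hv
      have h3 := std_le_avg (G := K) v
      have h4 : 0 < (avg K std v v).re := lt_of_lt_of_le h2 h3
      positivity
    · rw [hre]
      have h1 := haN.2.2 v hv hv0
      rw [coef_up, hb] at h1
      have h2 := one_le_std hv hv0
      have h3 := std_le_avg (G := K) v
      have h4 : (N : ℝ) * b ≤ N * (frm (up a) v v).re := mul_le_mul_of_nonneg_left h1 hK0.le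
      have h5 : (cr G : ℝ) * 1 ≤ cr G * (avg K std v v).re :=
        mul_le_mul_of_nonneg_left (h2.trans h3) hcc.le
      push_cast
      nlinarith
    · rw [up_smul, up_add, up_smul, frm_smul, frm_add, frm_smul, hy1]
      push_cast
      ring
    · rw [coef_smul, coef_add, coef_smul, hb, hy2]
      push_cast
      ring
  have h1 := span_smul (span_self hsa) (t := 1 / (cr G * N)) (by positivity)
  have h2 : (1 / (cr G * (N : ℝ))) • (cr G : ℝ) • ((N : ℝ) • a + y₀) =
      a + (1 / ((k : ℝ) + 1)) • y₀ := by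
    rw [← hKr, smul_smul, smul_add, smul_smul]
    have e1 : 1 / (cr G * (N : ℝ)) * cr G * N = 1 := by field_simp
    have e2 : 1 / (cr G * (N : ℝ)) * cr G = 1 / N := by field_simp
    rw [e1, e2, one_smul]
  rwa [h2] at h1

omit [Fintype K] in
/-- An integral class in the cone `NfR` is effective. -/
theorem eff_of_int (hn : OkR ρ) (hR : Restr G j K)
    (hj : IsExt ρ j) (hρ : Function.Injective ρ) {a : NR (grp G hG) j} (ha : a ∈ LR hG j)
    (haN : a ∈ NfR hG j) : a ∈ effCone (grp G hG) j := by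
  obtain ⟨D, k, hk⟩ := dat_of_LR hj ha
  obtain ⟨b, hb⟩ := coef_nat haN hk
  have hcc := cr_real (G := G)
  have key : (∀ v, v ≠ 0 → 0 < (frm (up a) v v).re) ∧
      (∀ v, Lat v → v ≠ 0 → (b : ℝ) ≤ (frm (up a) v v).re) ∨
        b = 0 ∧ ∀ v, 0 ≤ (frm (up a) v v).re := by
    by_cases hpd : ∀ v, v ≠ 0 → 0 < (frm (up a) v v).re
    · exact Or.inl ⟨hpd, fun v hv hv0 => by rw [← hb]; exact haN.2.2 v hv hv0⟩
    · push Not at hpd
      obtain ⟨v, hv, hv0⟩ := hpd
      obtain ⟨w, hw, hw0, hww⟩ := exists_ker D haN.1 hv (le_antisymm hv0 (haN.1 v))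
      have h1 := haN.2.2 w hw hw0
      rw [coef_up, hb, hww] at h1
      refine Or.inr ⟨?_, haN.1⟩
      have h2 : b ≤ 0 := by exact_mod_cast h1
      omega
  obtain ⟨N, hN, heff⟩ := effective_cls (G := G) (hG := hG) hn hR hj hρ D (frm_inv hR a) b key
    (y := (cr G : ℝ) • a)
    (fun u w => by rw [up_smul, frm_smul]; push_cast; ring) (by rw [coef_smul, hb])
  have hNr : (0 : ℝ) < N := by exact_mod_cast hN
  have h1 := span_smul (span_self heff) (t := 1 / (cr G * N)) (by positivity)
  have h2 : (1 / (cr G * (N : ℝ))) • (N : ℝ) • (cr G : ℝ) • a = a := by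
    rw [smul_smul, smul_smul]
    have e1 : 1 / (cr G * (N : ℝ)) * N * cr G = 1 := by field_simp
    rw [e1, one_smul]
  rwa [h2] at h1

/-- The element of a cone of integral classes of `NfR`. -/
theorem Cp_le (hn : OkR ρ) (hK : PresLat K) (hR : Restr G j K)
    (hj : IsExt ρ j) (hρ : Function.Injective ρ) {x : NR (grp G hG) j}
    (hx : x ∈ Cp (LR hG j) (NfR hG j)) : x ∈ nefEff (grp G hG) j := by
  obtain ⟨S, hS, hx⟩ := hx
  exact ⟨cone_nef (fun a ha => nef_of_int hn hK hR hj hρ (hS a ha).1 (hS a ha).2) hx,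
    cone_span (fun a ha => eff_of_int hn hR hj hρ (hS a ha).1 (hS a ha).2) hx⟩

/-- A class whose pullback is spanned by integral classes of `Nf`. -/
theorem Cp_of_up (hK : PresLat K) (hR : Restr G j K) (hj : IsExt ρ j)
    (hρ : Function.Injective ρ) {x : NR (grp G hG) j}
    (hx : up x ∈ Cp (AddSubgroup.closure (Pool.Agent.R895.integral (kum (Fin n) 1) j)) (Nf 1 j)) :
    x ∈ Cp (LR hG j) (NfR hG j) := by
  classical
  obtain ⟨S, hS, c, hc, hxc⟩ := hx
  have hD : ∀ a ∈ S, Dat (frm a) ∧ ∃ b : ℕ, Pool.Agent.R895.coef a = b := fun a ha => by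
    obtain ⟨D, k, hk⟩ := Pool.Agent.T6.H34.GK.eis_of_mem hj (hS a ha).1
    exact ⟨D, Pool.Agent.T6.H34.GK.coef_nat (hS a ha).2 hk⟩
  choose! b hb using fun a ha => (hD a ha).2
  choose! y hy1 hy2 hy3 using fun a (ha : a ∈ S) =>
    exists_cls hG hR hj hρ (avg_dat hK (hD a ha).1) (avg_inv (G := K) (frm a))
      (Fintype.card K * b a)
  have hcc := cr_real (G := G)
  have hcG : (0 : ℝ) < Fintype.card K := by exact_mod_cast Fintype.card_pos
  have hcc' : (cr G : ℂ) ≠ 0 := cr_ne
  have hcG' : (Fintype.card K : ℂ) ≠ 0 := by exact_mod_cast Fintype.card_ne_zero (α := K)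
  refine ⟨S.image y, fun z hz => ?_, ?_⟩
  · obtain ⟨a, ha, rfl⟩ := Finset.mem_image.1 hz
    have haN := (hS a ha).2
    refine ⟨AddSubgroup.subset_closure (hy1 a ha), fun v => ?_, ?_, fun v hv hv0 => ?_⟩
    · rw [hy2 a ha, re_natMul, avg_re]
      exact mul_nonneg hcc.le (Finset.sum_nonneg fun g _ => haN.1 _)
    · rw [coef_up, hy3 a ha]
      positivity
    · rw [hy2 a ha, re_natMul, avg_re, coef_up, hy3 a ha]
      refine mul_le_mul_of_nonneg_left ?_ hcc.le
      push_cast
      rw [← hb a ha, ← nsmul_eq_mul, ← Finset.card_univ, ← Finset.sum_const]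
      exact Finset.sum_le_sum fun g _ => haN.2.2 _ (hK g g.2 v hv) (by simpa using hv0)
  · have h1 : x = ∑ a ∈ S, (c a / (cr G * Fintype.card K)) • y a := by
      have hf : ∀ (s : Finset (N1 (kum (Fin n) 1) j)) (v w : Fin r → ℂ), s ⊆ S →
          frm (up (∑ a ∈ s, (c a / (cr G * Fintype.card K)) • y a)) v w =
            (Fintype.card K : ℂ)⁻¹ * avg K (frm (∑ a ∈ s, c a • a)) v w := by
        intro s v w
        induction s using Finset.induction_on with
        | empty =>
          intro _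
          rw [Finset.sum_empty, Finset.sum_empty, up_zero, frm_zero]
          unfold avg
          simp [frm_zero]
        | insert a s ha ih =>
          intro hs
          have e1 : avg K (frm (∑ a ∈ insert a s, c a • a)) v w =
              c a * avg K (frm a) v w + avg K (frm (∑ a ∈ s, c a • a)) v w := by
            unfold avg
            rw [Finset.sum_insert ha, Finset.mul_sum, ← Finset.sum_add_distrib]
            exact Finset.sum_congr rfl fun g _ => by rw [frm_add, frm_smul]
          rw [Finset.sum_insert ha, up_add, frm_add,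
            ih fun a ha => hs (Finset.mem_insert_of_mem ha), up_smul, frm_smul,
            hy2 a (hs (Finset.mem_insert_self _ _)), e1]
          push_cast
          field_simp
      have hcs : ∀ s : Finset (N1 (kum (Fin n) 1) j), s ⊆ S →
          coef (∑ a ∈ s, (c a / (cr G * Fintype.card K)) • y a) =
            Pool.Agent.R895.coef (∑ a ∈ s, c a • a) := by
        intro s
        induction s using Finset.induction_on with
        | empty =>
          intro _
          rw [Finset.sum_empty, Finset.sum_empty, coef_zero, Pool.Agent.T6.H34.GK.coef_zero]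
        | insert a s ha ih =>
          intro hs
          have ha' := hs (Finset.mem_insert_self a s)
          rw [Finset.sum_insert ha, Finset.sum_insert ha, coef_add,
            ih fun a ha => hs (Finset.mem_insert_of_mem ha),
            coef_smul, hy3 a ha', Pool.Agent.T6.H34.GK.coef_add, Pool.Agent.T6.H34.GK.coef_smul, hb a ha']
          push_cast
          field_simp
      refine NR_ext (fun v w => ?_) ?_
      · rw [hf S v w (Finset.Subset.refl _), ← hxc, avg_of_inv (frm_inv hR x)]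
        field_simp
      · rw [hcs S (Finset.Subset.refl _), ← hxc]
        rfl
    rw [h1]
    exact mem_cone_of_sum S _ _ (fun a ha => Finset.mem_image_of_mem _ ha)
      fun a _ => div_nonneg (hc a) (by positivity)

theorem mem_Cp_iff (hn : OkR ρ) (hK : PresLat K) (hR : Restr G j K)
    (hj : IsExt ρ j) (hρ : Function.Injective ρ) (x : NR (grp G hG) j) :
    x ∈ Cp (LR hG j) (NfR hG j) ↔ x ∈ nefEff (grp G hG) j := by
  refine ⟨fun h => Cp_le hn hK hR hj hρ h, fun h => ?_⟩
  have h1 : x ∈ NfR hG j := nefCone_le hj hρ h.1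
  have h2 : up x ∈ Pool.Agent.R895.effCone (kum (Fin n) 1) j := up_eff h.2
  rw [mem_NfR] at h1
  exact Cp_of_up hK hR hj hρ (Pool.Agent.T6.H34.GK.Cp_of_eff hj hρ h1 h2)

/-- The relative nef cone. -/
theorem nefCone_eq (hn : OkR ρ) (hK : PresLat K) (hR : Restr G j K)
    (hj : IsExt ρ j) (hρ : Function.Injective ρ) : nefCone (grp G hG) j = NfR hG j := by
  refine Set.Subset.antisymm (nefCone_le hj hρ) fun x hx => ?_
  obtain ⟨y₀, hy0, hy1, hy2⟩ := exists_y₀ hG hK hR hj hρ
  have hcc := cr_real (G := G)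
  have hre : ∀ v : Fin r → ℂ, (frm (up y₀) v v).re = cr G * (2 * (avg K std v v).re) := by
    intro v
    rw [hy1, re_twice]
  have hyN : y₀ ∈ NfR hG j := y_N hy1 hy2
  refine mem_closed (y := y₀) isClosed_closure fun k => ?_
  have hk : (0 : ℝ) < 1 / ((k : ℝ) + 1) := by positivity
  have h1 : up (x + (1 / ((k : ℝ) + 1)) • y₀) ∈ Cp (AddSubgroup.closure
      (Pool.Agent.R895.integral (kum (Fin n) 1) j)) (Nf 1 j) := by
    have h0 : x + (1 / ((k : ℝ) + 1)) • y₀ ∈ NfR hG j := NfR_add hx (NfR_smul hk.le hyN)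
    rw [mem_NfR] at h0
    refine Pool.Agent.T6.H34.GK.Cp_of_pd hj hρ
      h0 ⟨1 / ((k : ℝ) + 1) * (cr G * 2), by positivity, fun v => ?_⟩
    rw [up_add, up_smul, frm_add, Complex.add_re, frm_smul, Complex.re_ofReal_mul, hre]
    have h2 := hx.1 v
    have h3 := std_le_avg (G := K) v
    have h4 : 1 / ((k : ℝ) + 1) * (cr G * 2) * (std v v).re ≤
        1 / ((k : ℝ) + 1) * (cr G * 2) * (avg K std v v).re :=
      mul_le_mul_of_nonneg_left h3 (by positivity)
    linarith
  obtain ⟨S, hS, h2⟩ := Cp_of_up hK hR hj hρ h1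
  exact cone_nef (fun a ha => nef_of_int hn hK hR hj hρ (hS a ha).1 (hS a ha).2) h2

end Pool.Agent.H899.RG
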