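import Pool.Agent.H899.RG.Nef

/-!
# Reduction theory with a congruence condition
-/

set_option autoImplicit false
set_option maxHeartbeats 400000

namespace Pool.Agent.H899.RG

open Pool.Agent.H899.ER (NRs NR form coef integral semiample effective span nefCone effCone nefEff
  IsPullback IsOver IsAutGroup HasDomain)

open Filter Topology
open Pool.Agent.W594.SYZ2 (IsHermitian)
open Pool.Agent.R895 (BlBundle act N1 N1s IsClass)
open Pool.Agent.T6.H34.GK (Lat kum IsGau std frm kap Nf Dat IsExt exH exH_herm exH_int co mem_co frm_add frm_smul frm_sub frm_zero form_frm N1_ext' kap_ne kap_pos re_natMul frm_herm std_dat std_herm std_int std_pos std_nonneg one_le_std le_std xi exists_ker lat dat_of_isInt re_kap_div lat_single)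
open Pool.Agent.Y167 (AffGrp cone CData Pol Cp cone_ind cone_add cone_smul cone_sum cone_le
  mem_cone_self mem_cone_of_sum zero_mem_cone cone_mono)
open Pool.Agent.T6.H34.EK (QBundle NS NSs IsCls)
open Pool.Agent.T6.H34.GE (PresLat grp res c0 c0_pos c0_real avg avg_dat avg_inv avg_re avg_of_inv Inv std_le_avg re_twice gEnd exists_pol avg_le_std)

variable {n r : ℕ} {G : Subgroup ((Fin n → ℂ) ≃ₗ[ℂ] (Fin n → ℂ))} {hG : PresLat G}
  {j : (Fin r → ℂ) →ₗ[ℂ] (Fin n → ℂ)} {ρ : Fin r → Fin n}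
  {K : Subgroup ((Fin r → ℂ) ≃ₗ[ℂ] (Fin r → ℂ))} {h : (Fin r → ℂ) → (Fin r → ℂ) → ℂ}

theorem form_span (hR : Restr G j K) (hj : IsExt ρ j) (x : NR (grp G hG) j) :
    Pool.Agent.R895.form (up x) ∈ Submodule.span ℝ {z | Pol.IsInt (lat r) (gEnd K) z} := by
  obtain ⟨x, hx⟩ := x
  change x.1 ∈ _
  induction hx using Submodule.span_induction with
  | mem x hx =>
    have hx' : ∃ L : QBundle (grp G hG), IsClass j L.toBlBundle x := hx
    have hinv : ∀ a ∈ K, ∀ u w, x.1 (a u) (a w) = x.1 u w := fun a ha =>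
      form_inv hR (⟨x, Submodule.subset_span hx'⟩ : NR (grp G hG) j) ha
    obtain ⟨L, hL⟩ := hx
    obtain ⟨H, h2, h3, h4⟩ := res_isClass hL
    refine Submodule.subset_span ⟨⟨fun u v w => ?_, fun a v w => ?_, fun v w => ?_⟩, ?_,
      fun u hu w hw => ?_⟩
    · rw [h3, h3, h3, map_add, h2.1.add_left]
    · rw [h3, h3, map_smul, h2.1.smul_left]
    · rw [h3, h3]
      exact h2.1.symm _ _
    · rintro a ⟨g, hg, rfl⟩ u w
      exact hinv g hg u w
    · rw [h3]
      exact Pool.Agent.T6.H34.GK.chern_int h2 (hj.lat hu) (hj.lat hw)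
  | zero => exact Submodule.zero_mem _
  | add x y _ _ h1 h2 => exact Submodule.add_mem _ h1 h2
  | smul t x _ h1 => exact Submodule.smul_mem _ t h1

/-- The automorphisms of the lattice which commute with `K`. -/
structure Cent (K : Subgroup ((Fin r → ℂ) ≃ₗ[ℂ] (Fin r → ℂ)))
    (u : (Fin r → ℂ) ≃ₗ[ℂ] (Fin r → ℂ)) : Prop where
  lat : ∀ v, Lat v → Lat (u v)
  lat' : ∀ v, Lat v → Lat (u.symm v)
  comm : ∀ a ∈ K, ∀ v, u (a v) = a (u v)

theorem Cent.symm {u : (Fin r → ℂ) ≃ₗ[ℂ] (Fin r → ℂ)} (h : Cent K u) : Cent K u.symm :=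
  ⟨h.lat', fun v hv => by rw [LinearEquiv.symm_symm]; exact h.lat v hv, fun a ha v => by
    apply u.injective
    rw [u.apply_symm_apply, h.comm a ha, u.apply_symm_apply]⟩

theorem Cent.trans {u t : (Fin r → ℂ) ≃ₗ[ℂ] (Fin r → ℂ)} (h : Cent K u) (h' : Cent K t) :
    Cent K (u.trans t) :=
  ⟨fun v hv => h'.lat _ (h.lat v hv), fun v hv => h.lat' _ (h'.lat' v hv), fun a ha v => by
    rw [LinearEquiv.trans_apply, LinearEquiv.trans_apply, h.comm a ha, h'.comm a ha]⟩

/-- The automorphism `u` is congruent to `1` modulo `N`. -/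
def Cong (N : ℕ) (u : (Fin r → ℂ) ≃ₗ[ℂ] (Fin r → ℂ)) : Prop :=
  ∀ v, Lat v → ∃ w, Lat w ∧ u v = v + (N : ℂ) • w

theorem Cong.symm {N : ℕ} {u : (Fin r → ℂ) ≃ₗ[ℂ] (Fin r → ℂ)} (h : Cong N u)
    (hu : ∀ v, Lat v → Lat (u.symm v)) : Cong N u.symm := by
  intro v hv
  obtain ⟨w, hw, h1⟩ := h (u.symm v) (hu v hv)
  rw [u.apply_symm_apply] at h1
  refine ⟨-w, fun i => (hw i).neg, ?_⟩
  rw [smul_neg, ← sub_eq_add_neg]
  exact eq_sub_of_add_eq h1.symm

theorem lat_sum {ι κ : Type*} (s : Finset κ) (f : κ → ι → ℂ) (hf : ∀ k ∈ s, Lat (f k)) :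
    Lat (∑ k ∈ s, f k) := fun i => by
  rw [Finset.sum_apply]
  exact IsGau.sum _ _ fun k hk => hf k hk i

theorem lat_smul {ι : Type*} {z : ℂ} (hz : IsGau z) {v : ι → ℂ} (hv : Lat v) : Lat (z • v) :=
  fun i => hz.mul (hv i)

/-- Representatives for the classes modulo `N`. -/
theorem exists_reps (K : Subgroup ((Fin r → ℂ) ≃ₗ[ℂ] (Fin r → ℂ))) {N : ℕ} (hN : 0 < N) :
    ∃ T : Finset ((Fin r → ℂ) ≃ₗ[ℂ] (Fin r → ℂ)), (∀ t ∈ T, Cent K t) ∧
      ∀ u, Cent K u → ∃ t ∈ T, Cong N (u.trans t.symm) := by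
  classical
  have hNZ : NeZero N := ⟨hN.ne'⟩
  -- the residues
  let X : Type := {u : (Fin r → ℂ) ≃ₗ[ℂ] (Fin r → ℂ) // Cent K u}
  have hint : ∀ (u : X) (k i : Fin r), ∃ p : ℤ × ℤ,
      (u.1 (Pi.single k 1)) i = p.1 + p.2 * Complex.I := by
    intro u k i
    obtain ⟨a, b, h⟩ := u.2.lat _ (lat_single k) i
    exact ⟨(a, b), h⟩
  choose p hp using hint
  let f : X → (Fin r → Fin r → ZMod N × ZMod N) := fun u k i => ((p u k i).1, (p u k i).2)
  have hfin : (Set.range f).Finite := Set.toFinite _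
  have hch : ∀ b : Set.range f, ∃ u : X, f u = b := fun b => b.2
  choose s hs using hch
  have hfin' : (Set.range fun b => (s b).1).Finite := by
    have : Finite (Set.range f) := hfin.to_subtype
    exact Set.finite_range _
  refine ⟨hfin'.toFinset, fun t ht => ?_, fun u hu => ?_⟩
  · rw [Set.Finite.mem_toFinset] at ht
    obtain ⟨b, rfl⟩ := ht
    exact (s b).2
  · set t := s ⟨f ⟨u, hu⟩, ⟨_, rfl⟩⟩ with ht
    have h1 : f t = f ⟨u, hu⟩ := hs ⟨f ⟨u, hu⟩, ⟨_, rfl⟩⟩
    refine ⟨t.1, ?_, ?_⟩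
    · rw [Set.Finite.mem_toFinset]
      exact ⟨_, rfl⟩
    · -- the difference on the basis vectors
      have h2 : ∀ k : Fin r, ∃ w, Lat w ∧ u (Pi.single k 1) = t.1 (Pi.single k 1) + (N : ℂ) • w := by
        intro k
        have h3 : ∀ i, ∃ z, IsGau z ∧ u (Pi.single k 1) i = t.1 (Pi.single k 1) i + N * z := by
          intro i
          have h4 := congrFun (congrFun h1 k) i
          have h5 : (((p t k i).1 : ZMod N)) = ((p ⟨u, hu⟩ k i).1 : ZMod N) :=
            congrArg Prod.fst h4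
          have h6 : (((p t k i).2 : ZMod N)) = ((p ⟨u, hu⟩ k i).2 : ZMod N) :=
            congrArg Prod.snd h4
          rw [ZMod.intCast_eq_intCast_iff_dvd_sub] at h5 h6
          obtain ⟨a, ha⟩ := h5
          obtain ⟨b, hb⟩ := h6
          refine ⟨a + b * Complex.I, ⟨a, b, rfl⟩, ?_⟩
          have h7 := hp ⟨u, hu⟩ k i
          have h8 := hp t k i
          change u (Pi.single k 1) i = _ at h7
          rw [h7, h8]
          have ha' : ((p ⟨u, hu⟩ k i).1 : ℂ) = (p t k i).1 + N * a := by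
            have : ((p ⟨u, hu⟩ k i).1 : ℤ) = (p t k i).1 + N * a := by linarith
            rw [this]
            push_cast
            ring
          have hb' : ((p ⟨u, hu⟩ k i).2 : ℂ) = (p t k i).2 + N * b := by
            have : ((p ⟨u, hu⟩ k i).2 : ℤ) = (p t k i).2 + N * b := by linarith
            rw [this]
            push_cast
            ring
          rw [ha', hb']
          ring
        choose w hw h3 using h3
        exact ⟨w, hw, funext fun i => by
          rw [h3 i]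
          rfl⟩
      choose w hw h2 using h2
      intro v hv
      refine ⟨∑ k, v k • t.1.symm (w k), lat_sum _ _ fun k _ =>
        lat_smul (hv k) (t.2.lat' _ (hw k)), ?_⟩
      have h4 : v = ∑ k, v k • (Pi.single k 1 : Fin r → ℂ) := by
        ext i
        simp [Finset.sum_apply, Pi.single_apply]
      change t.1.symm (u v) = _
      have h5 : t.1.symm (u v) = ∑ k, v k • t.1.symm (u (Pi.single k 1)) := by
        conv_lhs => rw [h4]
        rw [map_sum, map_sum]
        simp only [map_smul]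
      have h6 : ∀ k, t.1.symm (u (Pi.single k 1)) =
          Pi.single k 1 + (N : ℂ) • t.1.symm (w k) := by
        intro k
        rw [h2, map_add, t.1.symm_apply_apply, map_smul]
      rw [h5]
      simp only [h6, smul_add, Finset.sum_add_distrib]
      rw [← h4, Finset.smul_sum]
      congr 1
      exact Finset.sum_congr rfl fun k _ => smul_comm _ _ _

/-- **Reduction theory.** -/
theorem red_cls [Fintype K] (hG : PresLat G) (hK : PresLat K) (hR : Restr G j K)
    (hj : IsExt ρ j) {N : ℕ} (hN : 0 < N) :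
    ∃ F : Finset ((Fin r → ℂ) → (Fin r → ℂ) → ℂ),
      (∀ z ∈ F, (Dat z ∧ ∀ v, 0 ≤ (z v v).re) ∧ Inv K z) ∧
      ∀ x : NR (grp G hG) j,
        (∃ t : ℝ, 0 < t ∧ ∀ v, t * (std v v).re ≤ (frm (up x) v v).re) →
        ∃ u : (Fin r → ℂ) ≃ₗ[ℂ] (Fin r → ℂ), Cent K u ∧ Cong N u ∧
          ∃ c : ((Fin r → ℂ) → (Fin r → ℂ) → ℂ) → ℝ, (∀ z, 0 ≤ c z) ∧
            ∀ v w, frm (up x) v w = ∑ z ∈ F, c z * z (u v) (u w) := by
  classical
  obtain ⟨d, b, P⟩ := exists_pol hK
  obtain ⟨F, hF, hred⟩ := P.red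
  obtain ⟨C, hC, hCs⟩ := avg_le_std K
  obtain ⟨T, hT, hTr⟩ := exists_reps K hN
  let sc : ((Fin r → ℂ) ≃ₗ[ℂ] (Fin r → ℂ)) × ((Fin r → ℂ) → (Fin r → ℂ) → ℂ) →
    ((Fin r → ℂ) → (Fin r → ℂ) → ℂ) := fun p u w => p.2 (p.1 u) (p.1 w) / kap
  refine ⟨(T ×ˢ F).image sc, fun z hz => ?_, fun x hx => ?_⟩
  · obtain ⟨p, hp, rfl⟩ := Finset.mem_image.1 hz
    obtain ⟨hp1, hp2⟩ := Finset.mem_product.1 hp
    obtain ⟨h1, h2⟩ := hF p.2 hp2
    have ht := hT p.1 hp1
    refine ⟨⟨?_, fun v => ?_⟩, fun g hg u w => ?_⟩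
    · have h3 : Pol.IsInt (lat r) ∅ (fun u w => p.2 (p.1 u) (p.1 w)) :=
        ⟨⟨fun u v w => by rw [map_add, h1.herm.add_left],
          fun a v w => by rw [map_smul, h1.herm.smul_left], fun v w => h1.herm.symm _ _⟩,
          fun g hg => absurd hg (Set.notMem_empty g),
          fun u hu w hw => h1.int _ (ht.lat u hu) _ (ht.lat w hw)⟩
      exact dat_of_isInt h3
    · change 0 ≤ (p.2 (p.1 v) (p.1 v) / kap).re
      rw [re_kap_div]
      exact div_nonneg (h2 _) kap_pos.le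
    · change p.2 (p.1 (g u)) (p.1 (g w)) / kap = p.2 (p.1 u) (p.1 w) / kap
      have h3 : p.2 (p.1 (g u)) (p.1 (g w)) = p.2 (p.1 u) (p.1 w) := by
        rw [ht.comm g hg, ht.comm g hg]
        exact h1.inv _ ⟨g, hg, rfl⟩ _ _
      rw [h3]
  · obtain ⟨t, ht, hxt⟩ := hx
    obtain ⟨u, hu1, hu2, hu3, c, hc, hsum⟩ := hred (Pool.Agent.R895.form (up x))
      (form_span hR hj x) ⟨t / C, by positivity, fun v => by
        rw [form_frm, Complex.re_ofReal_mul, Complex.re_ofReal_mul]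
        have h1 := hxt v
        have h2 := kap_pos
        have h3 := hCs v
        have h4 : t / C * (kap * (avg K std v v).re) = kap * (t * ((avg K std v v).re / C)) := by
          field_simp
        rw [h4]
        refine mul_le_mul_of_nonneg_left (le_trans (mul_le_mul_of_nonneg_left ?_ ht.le) h1) h2.le
        rw [div_le_iff₀ hC, mul_comm]
        exact h3⟩
    have hu : Cent K u := ⟨fun v hv => hu1 v hv, fun v hv => hu2 v hv,
      fun g hg v => hu3 _ ⟨g, hg, rfl⟩ v⟩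
    obtain ⟨τ, hτ, hcong⟩ := hTr u hu
    -- the coefficients
    refine ⟨u.trans τ.symm, hu.trans (hT τ hτ).symm, hcong,
      fun z => ∑ y ∈ F.filter (fun y => sc (τ, y) = z), c y, fun z => Finset.sum_nonneg fun y _ =>
        hc y, fun v w => ?_⟩
    have h5 : frm (up x) v w = ∑ y ∈ F, (c y : ℂ) *
        sc (τ, y) ((u.trans τ.symm) v) ((u.trans τ.symm) w) := by
      unfold frm
      rw [hsum, Finset.sum_div]
      refine Finset.sum_congr rfl fun y _ => ?_
      change _ = (c y : ℂ) * (y (τ (τ.symm (u v))) (τ (τ.symm (u w))) / kap)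
      rw [τ.apply_symm_apply, τ.apply_symm_apply, mul_div_assoc]
    rw [h5]
    have h6 : ∀ z ∈ (T ×ˢ F).image sc,
        ((∑ y ∈ F.filter (fun y => sc (τ, y) = z), c y : ℝ) : ℂ) *
          z ((u.trans τ.symm) v) ((u.trans τ.symm) w) =
        ∑ y ∈ F.filter (fun y => sc (τ, y) = z), (c y : ℂ) *
          sc (τ, y) ((u.trans τ.symm) v) ((u.trans τ.symm) w) := by
      intro z _
      rw [Complex.ofReal_sum, Finset.sum_mul]
      refine Finset.sum_congr rfl fun y hy => ?_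
      rw [(Finset.mem_filter.1 hy).2]
    rw [Finset.sum_congr rfl h6]
    rw [Finset.sum_fiberwise_of_maps_to fun y hy => Finset.mem_image_of_mem sc
      (Finset.mk_mem_product hτ hy)]

end Pool.Agent.H899.RG
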