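import Pool.Graph.R_pool_sql_team_seeded_47a924f7.T6.H34.GE.Main
import Pool.Agent.H899.ER.Defs

/-!
# Relative classes: restriction to the translations
-/

set_option autoImplicit false

namespace Pool.Agent.H899.RG

open Pool.Agent.H899.ER (NRs NR form coef integral semiample effective span nefCone effCone nefEff
  IsPullback IsOver IsAutGroup HasDomain)

open Filter Topology
open Pool.Agent.W594.SYZ2 (IsHermitian)
open Pool.Agent.R895 (BlBundle act N1 N1s IsClass)
open Pool.Agent.T6.H34.GK (Lat kum IsGau std frm kap Nf Dat IsExt frm_add frm_smul frm_sub frm_zero form_frm N1_ext' kap_ne)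
open Pool.Agent.Y167 (AffGrp cone cone_ind cone_add cone_smul mem_cone_self zero_mem_cone cone_mono)
open Pool.Agent.T6.H34.EK (QBundle IsCls eisLat)
open Pool.Agent.T6.H34.GE (PresLat grp res kum_le res_semiample res_section' chern_inv Inv)

section top

variable {V E : Type*} [NormedAddCommGroup V] [NormedSpace ℂ V]
  [NormedAddCommGroup E] [NormedSpace ℂ E] {Γ : AffGrp V} {j : E →ₗ[ℂ] V}

instance : IsTopologicalAddGroup (NR Γ j) :=
  inferInstanceAs (IsTopologicalAddGroup (NRs Γ j))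

instance : ContinuousSMul ℝ (NR Γ j) :=
  inferInstanceAs (ContinuousSMul ℝ (NRs Γ j))

theorem span_add {A : Set (NR Γ j)} {x y : NR Γ j} (hx : x ∈ span A) (hy : y ∈ span A) :
    x + y ∈ span A := by
  classical
  obtain ⟨S, hS, hx⟩ := hx
  obtain ⟨T, hT, hy⟩ := hy
  refine ⟨S ∪ T, ?_, cone_add (cone_mono Finset.subset_union_left hx)
    (cone_mono Finset.subset_union_right hy)⟩
  rw [Finset.coe_union]
  exact Set.union_subset hS hT

theorem span_smul {A : Set (NR Γ j)} {x : NR Γ j} (hx : x ∈ span A) {t : ℝ} (ht : 0 ≤ t) :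
    t • x ∈ span A := by
  obtain ⟨S, hS, hx⟩ := hx
  exact ⟨S, hS, cone_smul hx ht⟩

theorem span_zero {A : Set (NR Γ j)} : (0 : NR Γ j) ∈ span A :=
  ⟨∅, by simp, zero_mem_cone _⟩

theorem span_self {A : Set (NR Γ j)} {x : NR Γ j} (hx : x ∈ A) : x ∈ span A :=
  ⟨{x}, by simpa using hx, mem_cone_self (Finset.mem_singleton_self x)⟩

theorem nef_add {x y : NR Γ j} (hx : x ∈ nefCone Γ j) (hy : y ∈ nefCone Γ j) :
    x + y ∈ nefCone Γ j :=
  map_mem_closure₂ continuous_add hx hy fun _ ha _ hb => span_add ha hb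

theorem nef_smul {x : NR Γ j} (hx : x ∈ nefCone Γ j) {t : ℝ} (ht : 0 ≤ t) :
    t • x ∈ nefCone Γ j :=
  map_mem_closure (continuous_const_smul t) hx fun _ ha => span_smul ha ht

theorem nef_zero : (0 : NR Γ j) ∈ nefCone Γ j := subset_closure span_zero

theorem cone_nef {S : Finset (NR Γ j)} (hS : ∀ a ∈ S, a ∈ nefCone Γ j) {x : NR Γ j}
    (hx : x ∈ cone S) : x ∈ nefCone Γ j :=
  cone_ind (p := fun x => x ∈ nefCone Γ j) nef_zero (fun _ _ h1 h2 => nef_add h1 h2)
    (fun _ _ ht h => nef_smul h ht) hS hx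

theorem cone_span {S : Finset (NR Γ j)} {A : Set (NR Γ j)} (hS : ∀ a ∈ S, a ∈ span A) {x : NR Γ j}
    (hx : x ∈ cone S) : x ∈ span A :=
  cone_ind (p := fun x => x ∈ span A) span_zero (fun _ _ h1 h2 => span_add h1 h2)
    (fun _ _ ht h => span_smul h ht) hS hx

/-- A limit along a ray. -/
theorem mem_closed {A : Set (NR Γ j)} (hA : IsClosed A) {x y : NR Γ j}
    (h : ∀ n : ℕ, x + (1 / ((n : ℝ) + 1)) • y ∈ A) : x ∈ A := by
  have h1 : Tendsto (fun n : ℕ => x + (1 / ((n : ℝ) + 1)) • y) atTop (𝓝 (x + (0 : ℝ) • y)) :=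
    (tendsto_one_div_add_atTop_nhds_zero_nat.smul_const y).const_add x
  rw [zero_smul, add_zero] at h1
  exact hA.mem_of_tendsto h1 (Eventually.of_forall h)

end top

section res

variable {n r : ℕ} {G : Subgroup ((Fin n → ℂ) ≃ₗ[ℂ] (Fin n → ℂ))} {hG : PresLat G}
  {j : (Fin r → ℂ) →ₗ[ℂ] (Fin n → ℂ)}

theorem res_isClass {L : QBundle (grp G hG)} {x : ((Fin r → ℂ) → (Fin r → ℂ) → ℂ) × ℝ}
    (hL : IsClass j L.toBlBundle x) : IsClass j (res L.toBlBundle) x := by
  obtain ⟨H, ⟨h1, F, hF, h2⟩, h3, h4⟩ := hL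
  exact ⟨H, ⟨h1, F, hF, fun γ v => h2 ⟨γ.1, kum_le γ.2⟩ v⟩, h3, h4⟩

theorem NRs_le : NRs (grp G hG) j ≤ N1s (kum (Fin n) 1) j := by
  refine Submodule.span_mono ?_
  rintro x ⟨L, hL⟩
  exact ⟨_, res_isClass hL⟩

/-- The pullback to the blow-up of `E^n`. -/
def up (x : NR (grp G hG) j) : N1 (kum (Fin n) 1) j := ⟨x.1, NRs_le x.2⟩

/-- The pullback as a linear map. -/
def upL : NR (grp G hG) j →ₗ[ℝ] N1 (kum (Fin n) 1) j where
  toFun := up
  map_add' _ _ := rfl
  map_smul' _ _ := rfl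

theorem upL_apply (x : NR (grp G hG) j) : upL x = up x := rfl

theorem up_inj : Function.Injective (up (G := G) (hG := hG) (j := j)) := fun x y h => by
  have h1 : (up x).1 = (up y).1 := by rw [h]
  exact Subtype.ext h1

theorem form_up (x : NR (grp G hG) j) : Pool.Agent.R895.form (up x) = form x := rfl

theorem coef_up (x : NR (grp G hG) j) : Pool.Agent.R895.coef (up x) = coef x := rfl

theorem up_add (x y : NR (grp G hG) j) : up (x + y) = up x + up y := rfl

theorem up_sub (x y : NR (grp G hG) j) : up (x - y) = up x - up y := rfl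

theorem up_smul (t : ℝ) (x : NR (grp G hG) j) : up (t • x) = t • up x := rfl

theorem up_zero : up (0 : NR (grp G hG) j) = 0 := rfl

theorem coef_add (x y : NR (grp G hG) j) : coef (x + y) = coef x + coef y := rfl

theorem coef_sub (x y : NR (grp G hG) j) : coef (x - y) = coef x - coef y := rfl

theorem coef_smul (t : ℝ) (x : NR (grp G hG) j) : coef (t • x) = t * coef x := rfl

theorem coef_zero : coef (0 : NR (grp G hG) j) = 0 := rfl

theorem NR_ext {x y : NR (grp G hG) j} (h1 : ∀ u w, frm (up x) u w = frm (up y) u w)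
    (h2 : coef x = coef y) : x = y :=
  up_inj (N1_ext' h1 h2)

theorem up_semiample {x : NR (grp G hG) j} (hx : x ∈ semiample (grp G hG) j) :
    up x ∈ Pool.Agent.R895.semiample (kum (Fin n) 1) j := by
  obtain ⟨L, hL, h⟩ := hx
  exact ⟨_, res_isClass hL, res_semiample h⟩

theorem up_integral {x : NR (grp G hG) j} (hx : x ∈ integral (grp G hG) j) :
    up x ∈ Pool.Agent.R895.integral (kum (Fin n) 1) j := by
  obtain ⟨L, hL⟩ := hx
  exact ⟨_, res_isClass hL⟩

theorem up_effective {x : NR (grp G hG) j} (hx : x ∈ effective (grp G hG) j) :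
    up x ∈ Pool.Agent.R895.effective (kum (Fin n) 1) j := by
  obtain ⟨L, s, hL, hs, h0⟩ := hx
  exact ⟨_, s, res_isClass hL, res_section' hs, h0⟩

theorem continuous_up : Continuous (up (G := G) (hG := hG) (j := j)) := by
  have h1 : Continuous fun x : NR (grp G hG) j => x.1 := continuous_subtype_val
  exact Continuous.subtype_mk h1 _

/-- The group generated by the integral classes. -/
noncomputable abbrev LR (hG : PresLat G) (j : (Fin r → ℂ) →ₗ[ℂ] (Fin n → ℂ)) :
    AddSubgroup (NR (grp G hG) j) := AddSubgroup.closure (integral (grp G hG) j)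

theorem up_LR {x : NR (grp G hG) j} (hx : x ∈ LR hG j) :
    up x ∈ AddSubgroup.closure (Pool.Agent.R895.integral (kum (Fin n) 1) j) := by
  have h1 : LR hG j ≤ (AddSubgroup.closure
      (Pool.Agent.R895.integral (kum (Fin n) 1) j)).comap
        (upL (G := G) (hG := hG) (j := j)).toAddMonoidHom := by
    rw [AddSubgroup.closure_le]
    intro x hx
    exact AddSubgroup.subset_closure (up_integral hx)
  exact h1 hx

/-- The cone which will turn out to be the nef cone. -/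
def NfR (hG : PresLat G) (j : (Fin r → ℂ) →ₗ[ℂ] (Fin n → ℂ)) : Set (NR (grp G hG) j) :=
  {x | up x ∈ Nf 1 j}

theorem mem_NfR (x : NR (grp G hG) j) : x ∈ NfR hG j ↔ up x ∈ Nf 1 j := Iff.rfl

theorem NfR_add {x y : NR (grp G hG) j} (hx : x ∈ NfR hG j) (hy : y ∈ NfR hG j) :
    x + y ∈ NfR hG j := by
  rw [mem_NfR] at hx hy ⊢
  rw [up_add]
  exact Pool.Agent.T6.H34.GK.Nf_add hx hy

theorem NfR_smul {t : ℝ} (ht : 0 ≤ t) {x : NR (grp G hG) j} (hx : x ∈ NfR hG j) :
    t • x ∈ NfR hG j := by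
  rw [mem_NfR] at hx ⊢
  rw [up_smul]
  exact Pool.Agent.T6.H34.GK.Nf_smul ht hx

theorem NfR_zero : (0 : NR (grp G hG) j) ∈ NfR hG j := by
  rw [mem_NfR, up_zero]
  exact Pool.Agent.T6.H34.GK.Nf_zero

theorem isClosed_NfR : IsClosed (NfR hG j) :=
  (Pool.Agent.T6.H34.GK.isClosed_Nf (m := 1) (j := j)).preimage continuous_up

theorem span_integral : Submodule.span ℝ (integral (grp G hG) j) = ⊤ := by
  rw [eq_top_iff]
  rintro ⟨x, hx⟩ -
  induction hx using Submodule.span_induction with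
  | mem x hx => exact Submodule.subset_span hx
  | zero => exact Submodule.zero_mem _
  | add x y _ _ h1 h2 => exact Submodule.add_mem _ h1 h2
  | smul t x _ h1 => exact Submodule.smul_mem _ t h1

theorem up_span {A : Set (NR (grp G hG) j)} {B : Set (N1 (kum (Fin n) 1) j)}
    (hAB : ∀ a ∈ A, up a ∈ B) {x : NR (grp G hG) j} (hx : x ∈ span A) :
    up x ∈ Pool.Agent.R895.span B := by
  obtain ⟨S, hS, hx⟩ := hx
  refine cone_ind (p := fun x => up x ∈ Pool.Agent.R895.span B) ?_ ?_ ?_ ?_ hx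
  · rw [up_zero]
    exact Pool.Agent.T6.H34.GK.span_zero
  · intro x y h1 h2
    rw [up_add]
    exact Pool.Agent.T6.H34.GK.span_add h1 h2
  · intro t x ht h1
    rw [up_smul]
    exact Pool.Agent.T6.H34.GK.span_smul h1 ht
  · intro a ha
    exact Pool.Agent.T6.H34.GK.span_self (hAB a (hS ha))

theorem up_eff {x : NR (grp G hG) j} (hx : x ∈ effCone (grp G hG) j) :
    up x ∈ Pool.Agent.R895.effCone (kum (Fin n) 1) j :=
  up_span (fun _ ha => up_effective ha) hx

section ext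

variable {ρ : Fin r → Fin n}

theorem dat_of_LR (hj : IsExt ρ j) {x : NR (grp G hG) j} (hx : x ∈ LR hG j) :
    Dat (frm (up x)) ∧ ∃ k : ℤ, coef x = k :=
  Pool.Agent.T6.H34.GK.eis_of_mem hj (up_LR hx)

theorem nefCone_le (hj : IsExt ρ j) (hρ : Function.Injective ρ) [Nonempty (Fin n)] :
    nefCone (grp G hG) j ⊆ NfR hG j := by
  refine closure_minimal ?_ isClosed_NfR
  rintro x ⟨S, hS, hx⟩
  exact cone_ind (p := fun x => x ∈ NfR hG j) NfR_zero (fun _ _ h1 h2 => NfR_add h1 h2)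
    (fun _ _ ht h => NfR_smul ht h) (fun a ha => (mem_NfR a).2
      (Pool.Agent.T6.H34.GK.semiample_Nf hj hρ (up_semiample (hS ha)))) hx

theorem coef_nat {a : NR (grp G hG) j} (ha : a ∈ NfR hG j) {n : ℤ} (hn : coef a = n) :
    ∃ b : ℕ, coef a = b := by
  have h1 : 0 ≤ coef a := ha.2.1
  rw [hn] at h1
  have h2 : 0 ≤ n := by exact_mod_cast h1
  obtain ⟨b, rfl⟩ := Int.eq_ofNat_of_zero_le h2
  exact ⟨b, by rw [hn]; simp⟩

theorem finite_NR : FiniteDimensional ℝ (NR (grp G hG) j) := by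
  have : FiniteDimensional ℝ (N1 (kum (Fin n) 1) j) := Pool.Agent.T6.H34.GK.finite_N1
  exact Module.Finite.of_injective (upL (G := G) (hG := hG)) up_inj

end ext

/-- The group `Gr` consists of the restrictions of the elements of `G`. -/
structure Restr (G : Subgroup ((Fin n → ℂ) ≃ₗ[ℂ] (Fin n → ℂ)))
    (j : (Fin r → ℂ) →ₗ[ℂ] (Fin n → ℂ)) (K : Subgroup ((Fin r → ℂ) ≃ₗ[ℂ] (Fin r → ℂ))) :
    Prop where
  down : ∀ g ∈ G, ∃ a ∈ K, ∀ u, g (j u) = j (a u)
  lift : ∀ a ∈ K, ∃ g ∈ G, ∀ u, g (j u) = j (a u)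

variable {K : Subgroup ((Fin r → ℂ) ≃ₗ[ℂ] (Fin r → ℂ))}

theorem form_inv (hR : Restr G j K) (x : NR (grp G hG) j) {a : (Fin r → ℂ) ≃ₗ[ℂ] (Fin r → ℂ)}
    (ha : a ∈ K) (u w : Fin r → ℂ) : form x (a u) (a w) = form x u w := by
  obtain ⟨g, hg, h1⟩ := hR.lift a ha
  obtain ⟨x, hx⟩ := x
  change x.1 (a u) (a w) = x.1 u w
  induction hx using Submodule.span_induction with
  | mem x hx =>
    obtain ⟨L, H, h2, h3, h4⟩ := hx
    have h5 : IsCls L ((H, x.2) : ((Fin n → ℂ) → (Fin n → ℂ) → ℂ) × ℝ) := ⟨h2, h4⟩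
    rw [h3, h3, ← h1, ← h1]
    exact chern_inv h5 ⟨g, hg⟩ _ _
  | zero => rfl
  | add x y _ _ h1 h2 =>
    simp only [Prod.fst_add, Pi.add_apply, h1, h2]
  | smul t x _ h1 =>
    simp only [Prod.smul_fst, Pi.smul_apply, h1]

theorem frm_inv (hR : Restr G j K) (x : NR (grp G hG) j) : Inv K (frm (up x)) :=
  fun a ha u w => by
    unfold frm
    rw [form_up, form_inv hR x ha]

end res

end Pool.Agent.H899.RG
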