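import Pool.Agent.H899.ER.Defs

/-!
# The statement of the relative cone conjecture
-/

set_option autoImplicit false

namespace Pool.Agent.H899.RG

open Pool.Agent.H899.ER (NR nefCone coef form HasDomain IsAutGroup)
open Pool.Agent.Y167 (AffGrp)
open Pool.Agent.Y167.CC (LinGrp)

/-- The relative nef cone of `X → Z` is the cone of the classes `(h, b)` with
`0 ≤ κ b ≤ h(v, v)` for all nonzero `v` in `L`, and the conclusion of the relative cone conjecture
holds for all groups `𝒢` which have the properties `IsAutGroup` of the image of `Aut(X/Z)`. -/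
def RelCone {V E : Type*} [NormedAddCommGroup V] [NormedSpace ℂ V] [NormedAddCommGroup E]
    [NormedSpace ℂ E] (Γ : AffGrp V) (j : E →ₗ[ℂ] V) (κ : ℝ) (L : E → Prop) : Prop :=
  (∀ x : NR Γ j, x ∈ nefCone Γ j ↔
    0 ≤ coef x ∧ ∀ v, L v → v ≠ 0 → κ * coef x ≤ (form x v v).re) ∧
  ∀ 𝒢 : LinGrp (NR Γ j), IsAutGroup 𝒢 → HasDomain 𝒢

end Pool.Agent.H899.RG
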